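import Pool.Agent.Helper37.CH.Quad

/-!
# The global distance and the CAT(0) inequality
-/

set_option autoImplicit false

namespace Pool.Agent.Helper37.CH

open Set Finset

variable {P : Type} [MetricSpace P] {ε δ : ℝ}

open Classical in
/-- The length of a local geodesic from `x` to `y`. -/
noncomputable def DD (x y : P) : ℝ :=
  if h : ∃ (L : ℝ) (γ : ℝ → P), LGeo γ L ∧ γ 0 = x ∧ γ 1 = y then h.choose else 0

/-- The hypotheses of the theorem of Cartan and Hadamard. -/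
structure Hyp (P : Type) [MetricSpace P] (ε δ : ℝ) : Prop where
  cat : LocCat P ε
  complete : CompleteSpace P
  pos : 0 < δ
  le : δ ≤ ε / 16
  sc : ScAt P δ

variable (H : Hyp P ε δ)

include H

theorem Hyp.eq {γ : ℝ → P} {L : ℝ} (h : LGeo γ L) : DD (γ 0) (γ 1) = L := by
  have := H.complete
  have hex : ∃ (M : ℝ) (β : ℝ → P), LGeo β M ∧ β 0 = γ 0 ∧ β 1 = γ 1 := ⟨L, γ, h, rfl, rfl⟩
  unfold DD
  rw [dif_pos hex]
  obtain ⟨β, h1, h2, h3⟩ := hex.choose_spec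
  have h4 := Eg.unique H.cat H.pos H.le H.sc (⟨β, ⟨_, h1⟩, h2, h3⟩ : Eg (γ 0) (γ 1))
    ⟨γ, ⟨L, h⟩, rfl, rfl⟩
  have h5 : β = γ := congrArg Subtype.val h4
  subst h5
  exact h1.length_unique h

theorem Hyp.exists (x y : P) : ∃ γ : ℝ → P, LGeo γ (DD x y) ∧ γ 0 = x ∧ γ 1 = y := by
  have := H.complete
  obtain ⟨γ, ⟨L, h1⟩, h2, h3⟩ := Eg.exists H.cat H.le H.sc x y
  have := H.eq h1
  rw [h2, h3] at this
  rw [this]
  exact ⟨γ, h1, h2, h3⟩

theorem Hyp.unique {γ γ' : ℝ → P} {L L' : ℝ} (h : LGeo γ L) (h' : LGeo γ' L') (h0 : γ 0 = γ' 0)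
    (h1 : γ 1 = γ' 1) : γ = γ' := by
  have := H.complete
  exact congrArg Subtype.val (Eg.unique H.cat H.pos H.le H.sc
    (⟨γ, ⟨_, h⟩, rfl, rfl⟩ : Eg (γ 0) (γ 1)) ⟨γ', ⟨_, h'⟩, h0.symm, h1.symm⟩)

theorem Hyp.nonneg (x y : P) : 0 ≤ DD x y := by
  obtain ⟨γ, h, -⟩ := H.exists x y
  exact h.nonneg

theorem Hyp.comm (x y : P) : DD x y = DD y x := by
  obtain ⟨γ, h1, h2, h3⟩ := H.exists x y
  have := H.eq h1.rev
  simp only [sub_zero, sub_self] at this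
  rw [h2, h3] at this
  exact this.symm

theorem Hyp.of_lt {x y : P} (h : dist x y < ε) : DD x y = dist x y := by
  have h1 := H.cat.lgeo_of_lt h
  have h2 := H.eq h1
  simp only [clamp_eq (show (0 : ℝ) ∈ Icc (0 : ℝ) 1 from ⟨le_rfl, zero_le_one⟩),
    clamp_eq (show (1 : ℝ) ∈ Icc (0 : ℝ) 1 from ⟨zero_le_one, le_rfl⟩)] at h2
  rwa [H.cat.pt_zero h, H.cat.pt_one h] at h2

/-- Parts of geodesics. -/
theorem Hyp.part {γ : ℝ → P} {L : ℝ} (h : LGeo γ L) {u : ℝ} (hu : u ∈ Icc (0 : ℝ) 1) :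
    DD (γ 0) (γ u) = u * L := by
  have := H.eq (h.scale hu)
  simp only [clamp_eq (show (0 : ℝ) ∈ Icc (0 : ℝ) 1 from ⟨le_rfl, zero_le_one⟩),
    clamp_eq (show (1 : ℝ) ∈ Icc (0 : ℝ) 1 from ⟨zero_le_one, le_rfl⟩), mul_zero, mul_one] at this
  rw [this, mul_comm]

/-- Geodesics with close ends. -/
theorem Hyp.close {γ γ' : ℝ → P} {L L' : ℝ} (h : LGeo γ L) (h' : LGeo γ' L') (h0 : γ 0 = γ' 0)
    (hd : dist (γ 1) (γ' 1) < ε / 16) {t : ℝ} (ht : t ∈ Icc (0 : ℝ) 1) :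
    dist (γ t) (γ' t) ≤ t * dist (γ 1) (γ' 1) := by
  have := H.complete
  obtain ⟨β, M, h1, h2, h3, h4⟩ := H.cat.exists_move h (γ' 1) hd
  have : β = γ' := H.unique h1 h' (h2.trans h0) h3
  subst this
  exact h4 t ht

theorem Hyp.lip {x y y' : P} (hd : dist y y' < ε / 16) : DD x y' ≤ DD x y + dist y y' := by
  obtain ⟨γ, h1, h2, h3⟩ := H.exists x y
  obtain ⟨γ', h1', h2', h3'⟩ := H.exists x y'
  have hc := fun t (ht : t ∈ Icc (0 : ℝ) 1) => H.close h1 h1' (h2.trans h2'.symm)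
    (by rw [h3, h3']; exact hd) ht
  rw [h3, h3'] at hc
  obtain ⟨κ, hκ, hl⟩ := h1.loc
  obtain ⟨κ', hκ', hl'⟩ := h1'.loc
  obtain ⟨u, hu⟩ : ∃ u, u = min (min κ κ') 1 := ⟨_, rfl⟩
  have hu0 : 0 < u := hu ▸ lt_min (lt_min hκ hκ') one_pos
  have hu1 : u ≤ 1 := hu ▸ min_le_right _ _
  have hu2 : u ≤ κ := hu ▸ (min_le_left _ _).trans (min_le_left _ _)
  have hu3 : u ≤ κ' := hu ▸ (min_le_left _ _).trans (min_le_right _ _)
  have e1 := hl 0 u le_rfl hu0.le hu1 (by rw [sub_zero]; exact hu2)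
  have e2 := hl' 0 u le_rfl hu0.le hu1 (by rw [sub_zero]; exact hu3)
  have e3 := hc u ⟨hu0.le, hu1⟩
  have e4 := dist_triangle (γ' 0) (γ u) (γ' u)
  rw [h2'] at e4 e2
  rw [h2] at e1
  rw [e1, e2] at e4
  have e5 : DD x y' * u ≤ (DD x y + dist y y') * u := by nlinarith
  exact le_of_mul_le_mul_right e5 hu0

/-- The inequality of Bruhat and Tits for close points and the global distance. -/
theorem Hyp.cn {x a b m : P} (hm : Mid a m b) (hab : dist a b < ε / 64) :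
    DD x m ^ 2 ≤ DD x a ^ 2 / 2 + DD x b ^ 2 / 2 - dist a b ^ 2 / 4 := by
  have hε := H.cat.pos
  obtain ⟨α, hα, hα0, hα1⟩ := H.exists x a
  obtain ⟨β, hβ, hβ0, hβ1⟩ := H.exists x b
  have hc := fun t (ht : t ∈ Icc (0 : ℝ) 1) => H.close hα hβ (hα0.trans hβ0.symm)
    (by rw [hα1, hβ1]; linarith) ht
  rw [hα1, hβ1] at hc
  obtain ⟨κ, hκ, hl⟩ := hα.loc
  obtain ⟨κ', hκ', hl'⟩ := hβ.loc
  obtain ⟨A, hA⟩ : ∃ A, A = DD x a := ⟨_, rfl⟩
  obtain ⟨B, hB⟩ : ∃ B, B = DD x b := ⟨_, rfl⟩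
  rw [← hA] at hα hl ⊢
  rw [← hB] at hβ hl' ⊢
  have hA0 := hα.nonneg
  have hB0 := hβ.nonneg
  obtain ⟨N₀, hN₀⟩ := exists_nat_gt (max (max (1 / κ) (1 / κ')) (max (64 * A / ε) (64 * B / ε)))
  obtain ⟨N, hNe⟩ : ∃ N, N = N₀ + 1 := ⟨_, rfl⟩
  have hN : 0 < N := by omega
  have hN' : (0 : ℝ) < N := by exact_mod_cast hN
  have hbig : ∀ r, r ≤ max (max (1 / κ) (1 / κ')) (max (64 * A / ε) (64 * B / ε)) → r < N := by
    intro r hr
    rw [hNe]
    push_cast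
    linarith
  have hN1 : 1 / (N : ℝ) ≤ κ := by
    have h1 := hbig (1 / κ) ((le_max_left _ _).trans (le_max_left _ _))
    rw [div_lt_iff₀ hκ] at h1
    rw [div_le_iff₀ hN']
    linarith
  have hN2 : 1 / (N : ℝ) ≤ κ' := by
    have h1 := hbig (1 / κ') ((le_max_right _ _).trans (le_max_left _ _))
    rw [div_lt_iff₀ hκ'] at h1
    rw [div_le_iff₀ hN']
    linarith
  have hN3 : A / N < ε / 64 := by
    have h1 := hbig (64 * A / ε) ((le_max_left _ _).trans (le_max_right _ _))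
    rw [div_lt_iff₀ hε] at h1
    rw [div_lt_iff₀ hN']
    linarith
  have hN4 : B / N < ε / 64 := by
    have h1 := hbig (64 * B / ε) ((le_max_right _ _).trans (le_max_right _ _))
    rw [div_lt_iff₀ hε] at h1
    rw [div_lt_iff₀ hN']
    linarith
  have hAN : 0 ≤ A / N := div_nonneg hA0 hN'.le
  have hBN : 0 ≤ B / N := div_nonneg hB0 hN'.le
  have hn : ∀ i : ℕ, i ≤ N → (i : ℝ) / N ∈ Icc (0 : ℝ) 1 := fun i hi =>
    ⟨by positivity, by rw [div_le_one hN']; exact_mod_cast hi⟩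
  have hstep : ∀ i : ℕ, ((i + 1 : ℕ) : ℝ) / N - (i : ℝ) / N = 1 / N := fun i => by
    push_cast; ring
  have hle : ∀ i : ℕ, (i : ℝ) / N ≤ ((i + 1 : ℕ) : ℝ) / N := fun i => by
    have := hstep i
    have : 0 < 1 / (N : ℝ) := by positivity
    linarith
  have hαs : ∀ i < N, dist (α ((i : ℝ) / N)) (α (((i + 1 : ℕ) : ℝ) / N)) = A / N := fun i hi => by
    rw [hl _ _ (hn i hi.le).1 (hle i) (hn (i + 1) hi).2 (by rw [hstep]; exact hN1), hstep]
    ring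
  have hβs : ∀ i < N, dist (β ((i : ℝ) / N)) (β (((i + 1 : ℕ) : ℝ) / N)) = B / N := fun i hi => by
    rw [hl' _ _ (hn i hi.le).1 (hle i) (hn (i + 1) hi).2 (by rw [hstep]; exact hN2), hstep]
    ring
  obtain ⟨d, hd⟩ : ∃ d : ℕ → ℝ, d = fun i : ℕ => dist (α ((i : ℝ) / N)) (β ((i : ℝ) / N)) := ⟨_, rfl⟩
  have hd' : ∀ i : ℕ, d i = dist (α ((i : ℝ) / N)) (β ((i : ℝ) / N)) := fun i => by rw [hd]
  have hdlt : ∀ i ≤ N, dist (α ((i : ℝ) / N)) (β ((i : ℝ) / N)) < ε / 64 := fun i hi => by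
    have h1 := hc _ (hn i hi)
    have h2 := hn i hi
    have h3 : 0 ≤ dist a b := dist_nonneg
    nlinarith [h2.2]
  obtain ⟨w, hw⟩ : ∃ w : ℕ → P, w = fun i : ℕ => md (α ((i : ℝ) / N)) (β ((i : ℝ) / N)) := ⟨_, rfl⟩
  have hwm : ∀ i ≤ N, Mid (α ((i : ℝ) / N)) (w i) (β ((i : ℝ) / N)) := fun i hi => by
    rw [hw]
    exact H.cat.md_spec (by linarith [hdlt i hi])
  have hquad : ∀ i < N, dist (w i) (w (i + 1)) ^ 2 ≤
      (A / N) ^ 2 / 2 + (B / N) ^ 2 / 2 - (d i - d (i + 1)) ^ 2 / 4 := fun i hi => by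
    have := H.cat.quad (hwm i hi.le) (hwm (i + 1) hi) (by linarith [hdlt i hi.le])
      (by linarith [hdlt (i + 1) hi]) (by rw [hαs i hi]; linarith) (by rw [hβs i hi]; linarith)
    rw [hαs i hi, hβs i hi, ← hd', ← hd'] at this
    exact this
  have hwlt : ∀ i < N, dist (w i) (w (i + 1)) < ε / 16 := fun i hi => by
    have h1 := hquad i hi
    by_contra h2
    push Not at h2
    have h3 : (ε / 16) ^ 2 ≤ dist (w i) (w (i + 1)) ^ 2 := by
      have : (0 : ℝ) ≤ ε / 16 := by positivity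
      nlinarith
    have h4 : (A / N) ^ 2 ≤ (ε / 64) ^ 2 := by nlinarith
    have h5 : (B / N) ^ 2 ≤ (ε / 64) ^ 2 := by nlinarith
    nlinarith [sq_nonneg (d i - d (i + 1))]
  have hw0 : w 0 = x := by
    have h1 := hwm 0 (Nat.zero_le _)
    rw [Nat.cast_zero, zero_div, hα0, hβ0] at h1
    have h2 := h1.1
    rw [dist_self, zero_div] at h2
    exact (dist_eq_zero.1 h2).symm
  have hwN : w N = m := by
    have h1 := hwm N le_rfl
    rw [div_self hN'.ne', hα1, hβ1] at h1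
    exact H.cat.mid_unique h1 hm (by linarith)
  have hsum : ∀ i ≤ N, DD x (w i) ≤ ∑ j ∈ range i, dist (w j) (w (j + 1)) := by
    intro i
    induction i with
    | zero =>
      intro _
      rw [hw0, range_zero, sum_empty, H.of_lt (by rw [dist_self]; exact hε), dist_self]
    | succ i ih =>
      intro hi
      rw [sum_range_succ]
      have := H.lip (x := x) (hwlt i hi)
      linarith [ih (by omega)]
  have hD := hsum N le_rfl
  rw [hwN] at hD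
  have c1 : (∑ j ∈ range N, dist (w j) (w (j + 1))) ^ 2 ≤
      N * ∑ j ∈ range N, dist (w j) (w (j + 1)) ^ 2 := by
    have := sq_sum_le_card_mul_sum_sq (s := range N) (f := fun j => dist (w j) (w (j + 1)))
    rwa [card_range] at this
  have c2 : ∑ j ∈ range N, dist (w j) (w (j + 1)) ^ 2 ≤
      ∑ j ∈ range N, ((A / N) ^ 2 / 2 + (B / N) ^ 2 / 2 - (d (j + 1) - d j) ^ 2 / 4) := by
    refine sum_le_sum fun j hj => ?_
    have := hquad j (mem_range.1 hj)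
    rwa [← neg_sub (d (j + 1)) (d j), neg_sq] at this
  have c3 : (∑ j ∈ range N, (d (j + 1) - d j)) ^ 2 ≤ N * ∑ j ∈ range N, (d (j + 1) - d j) ^ 2 := by
    have := sq_sum_le_card_mul_sum_sq (s := range N) (f := fun j => d (j + 1) - d j)
    rwa [card_range] at this
  rw [sum_range_sub] at c3
  have hd0 : d 0 = 0 := by
    rw [hd', Nat.cast_zero, zero_div, hα0, hβ0, dist_self]
  have hdN : d N = dist a b := by
    rw [hd', div_self hN'.ne', hα1, hβ1]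
  rw [hd0, hdN, sub_zero] at c3
  rw [sum_sub_distrib, sum_const, card_range, ← sum_div, nsmul_eq_mul] at c2
  have c4 : (N : ℝ) * (N * ((A / N) ^ 2 / 2 + (B / N) ^ 2 / 2)) = A ^ 2 / 2 + B ^ 2 / 2 := by
    field_simp
  have c5 : DD x m ^ 2 ≤ (∑ j ∈ range N, dist (w j) (w (j + 1))) ^ 2 := by
    have := H.nonneg x m
    nlinarith
  have c6 := mul_le_mul_of_nonneg_left c2 hN'.le
  nlinarith

theorem Hyp.continuousOn {γ : ℝ → P} {L : ℝ} (h : LGeo γ L) (x : P) :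
    ContinuousOn (fun t => DD x (γ t)) (Icc 0 1) := by
  have hc := h.continuousOn
  have hε := H.cat.pos
  rw [Metric.continuousOn_iff] at hc ⊢
  intro t ht e he
  obtain ⟨η, hη, h1⟩ := hc t ht (min e (ε / 16)) (lt_min he (by positivity))
  refine ⟨η, hη, fun s hs hst => ?_⟩
  have h2 := h1 s hs hst
  have h3 : dist (γ s) (γ t) < e := h2.trans_le (min_le_left _ _)
  have h4 : dist (γ s) (γ t) < ε / 16 := h2.trans_le (min_le_right _ _)
  have h5 := H.lip (x := x) h4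
  have h6 := H.lip (x := x) (y := γ t) (y' := γ s) (by rwa [dist_comm])
  rw [dist_comm (γ t)] at h6
  rw [Real.dist_eq]
  exact (abs_le.2 ⟨by linarith, by linarith⟩ : |DD x (γ s) - DD x (γ t)| ≤ dist (γ s) (γ t)).trans_lt
    h3

/-- **The CAT(0) inequality.** -/
theorem Hyp.stewart {γ : ℝ → P} {L : ℝ} (h : LGeo γ L) (x : P) {t : ℝ} (ht : t ∈ Icc (0 : ℝ) 1) :
    DD x (γ t) ^ 2 ≤ (1 - t) * DD x (γ 0) ^ 2 + t * DD x (γ 1) ^ 2 - t * (1 - t) * L ^ 2 := by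
  have hε := H.cat.pos
  have hL := h.nonneg
  obtain ⟨κ, hκ, hm⟩ := h.mid
  obtain ⟨ν, hν⟩ : ∃ ν, ν = min κ (ε / (256 * (L + 1))) := ⟨_, rfl⟩
  have hν0 : 0 < ν := hν ▸ lt_min hκ (by positivity)
  have hν1 : ν ≤ κ := hν ▸ min_le_left _ _
  have hν2 : ν ≤ ε / (256 * (L + 1)) := hν ▸ min_le_right _ _
  have hν3 : 2 * L * ν < ε / 64 := by
    have h1 : L * ν ≤ (L + 1) * (ε / (256 * (L + 1))) :=
      mul_le_mul (by linarith) hν2 hν0.le (by linarith)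
    have h2 : (L + 1) * (ε / (256 * (L + 1))) = ε / 256 := by field_simp
    linarith
  have key := le_zero_of_midconvex
    (g := fun t => DD x (γ t) ^ 2 - ((1 - t) * DD x (γ 0) ^ 2 + t * DD x (γ 1) ^ 2
      - t * (1 - t) * L ^ 2))
    (by
      refine ContinuousOn.sub ((H.continuousOn h x).pow 2) ?_
      fun_prop)
    (by simp) (by simp) hν0 (by
      intro t u h1 h2 h3 h4
      obtain ⟨h5, h6⟩ := hm t u h1 (h2.trans hν1) h3 h4
      have h7 : 2 * L * u ≤ 2 * L * ν := by nlinarith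
      have h8 := H.cn (x := x) h5 (by rw [h6]; linarith)
      rw [h6] at h8
      nlinarith)
  have := key t ht
  linarith

/-- Obtuse angles. -/
theorem Hyp.obtuse {γ β : ℝ → P} {L M : ℝ} (h : LGeo γ L) (h' : LGeo β M) (h0 : γ 0 = β 0)
    {ρ σ : ℝ} (hρ : 0 < ρ) (hρ1 : ρ ≤ 1) (hσ : 0 < σ) (hσ1 : σ ≤ 1)
    (hd : (ρ * L) ^ 2 + (σ * M) ^ 2 ≤ DD (γ ρ) (β σ) ^ 2) :
    L ^ 2 + M ^ 2 ≤ DD (γ 1) (β 1) ^ 2 := by
  have e1 := H.stewart h (β σ) (t := ρ) ⟨hρ.le, hρ1⟩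
  rw [H.comm (β σ) (γ ρ), H.comm (β σ) (γ 0), h0, H.part h' ⟨hσ.le, hσ1⟩] at e1
  have e2 : L ^ 2 + (σ * M) ^ 2 ≤ DD (β σ) (γ 1) ^ 2 := by
    have : ρ * (L ^ 2 + (σ * M) ^ 2) ≤ ρ * DD (β σ) (γ 1) ^ 2 := by nlinarith
    exact le_of_mul_le_mul_left this hρ
  have e3 := H.stewart h' (γ 1) (t := σ) ⟨hσ.le, hσ1⟩
  rw [H.comm (γ 1) (β σ), H.comm (γ 1) (β 0), ← h0, H.eq h] at e3
  have : σ * (L ^ 2 + M ^ 2) ≤ σ * DD (γ 1) (β 1) ^ 2 := by nlinarith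
  exact le_of_mul_le_mul_left this hσ

end Pool.Agent.Helper37.CH
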