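import Pool.Agent.Helper37.CH.LG

/-!
# Discrete geodesics

A chain `x 0, ..., x N` in which each inner point is the midpoint of its neighbours stays so after
a small move of its last point, by iteration of the midpoint map.
-/

set_option autoImplicit false

namespace Pool.Agent.Helper37.CH

open Set Filter Topology

variable {P : Type} [MetricSpace P] {ε : ℝ}

/-- A midpoint if there is one. -/
noncomputable def md (a b : P) : P := by
  classical
  exact if h : ∃ m, Mid a m b then h.choose else a

theorem LocCat.md_spec (h : LocCat P ε) {a b : P} (hab : dist a b < ε) : Mid a (md a b) b := by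
  have h1 := h.exists_mid hab
  unfold md
  rw [dif_pos h1]
  exact h1.choose_spec

/-- One step of the midpoint iteration. -/
noncomputable def stp (N : ℕ) (y : ℕ → P) (i : ℕ) : P :=
  if i = 0 ∨ N ≤ i then y i else md (y (i - 1)) (y (i + 1))

theorem stp_zero (N : ℕ) (y : ℕ → P) : stp N y 0 = y 0 := if_pos (Or.inl rfl)

theorem stp_last (N : ℕ) (y : ℕ → P) : stp N y N = y N := if_pos (Or.inr le_rfl)

theorem stp_mid (N : ℕ) (y : ℕ → P) {i : ℕ} (h0 : 0 < i) (h1 : i < N) :
    stp N y i = md (y (i - 1)) (y (i + 1)) := if_neg (by omega)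

/-- The iteration. -/
noncomputable def itr (N : ℕ) (y : ℕ → P) : ℕ → ℕ → P
  | 0 => y
  | k + 1 => stp N (itr N y k)

/-- Existence of a discrete geodesic with the last point moved. -/
theorem LocCat.exists_chain [CompleteSpace P] (h : LocCat P ε) {N : ℕ} (hN : 0 < N) (x : ℕ → P)
    (hx : ∀ i, 0 < i → i < N → Mid (x (i - 1)) (x i) (x (i + 1)))
    (hs : ∀ i, 0 < i → i < N → dist (x (i - 1)) (x (i + 1)) < ε / 16) (y' : P)
    (hy : dist (x N) y' < ε / 16) : ∃ z : ℕ → P, z 0 = x 0 ∧ z N = y' ∧
      (∀ i, 0 < i → i < N → Mid (z (i - 1)) (z i) (z (i + 1))) ∧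
      ∀ i ≤ N, dist (z i) (x i) ≤ (i : ℝ) / N * dist (x N) y' := by
  have hε := h.pos
  have hN' : (0 : ℝ) < N := by exact_mod_cast hN
  obtain ⟨δ, hδ⟩ : ∃ δ, δ = dist (x N) y' := ⟨_, rfl⟩
  rw [← hδ] at hy ⊢
  have hδ0 : 0 ≤ δ := hδ ▸ dist_nonneg
  obtain ⟨y, hy0⟩ : ∃ y : ℕ → P, y = fun i => if i = N then y' else x i := ⟨_, rfl⟩
  have hyN : y N = y' := by rw [hy0]; exact if_pos rfl
  have hyi : ∀ i, i ≠ N → y i = x i := fun i hi => by rw [hy0]; exact if_neg hi
  -- invariants
  have inv : ∀ k, itr N y k 0 = x 0 ∧ itr N y k N = y' ∧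
      ∀ i ≤ N, dist (itr N y k i) (x i) ≤ (i : ℝ) / N * δ := by
    intro k
    induction k with
    | zero =>
      refine ⟨hyi 0 hN.ne, hyN, fun i hi => ?_⟩
      change dist (y i) (x i) ≤ _
      by_cases h1 : i = N
      · rw [h1, hyN, dist_comm, ← hδ, div_self hN'.ne', one_mul]
      · rw [hyi i h1, dist_self]
        positivity
    | succ k ih =>
      obtain ⟨ih0, ihN, ih⟩ := ih
      refine ⟨(stp_zero _ _).trans ih0, (stp_last _ _).trans ihN, fun i hi => ?_⟩
      change dist (stp N (itr N y k) i) (x i) ≤ _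
      rcases Nat.eq_zero_or_pos i with h0 | h0
      · rw [h0, stp_zero, ih0, dist_self]
        positivity
      rcases eq_or_lt_of_le hi with h1 | h1
      · rw [h1, stp_last]
        exact ih N le_rfl
      rw [stp_mid _ _ h0 h1]
      have h2 := ih (i - 1) (by omega)
      have h3 := ih (i + 1) (by omega)
      have hb1 : ((i - 1 : ℕ) : ℝ) / N * δ ≤ δ := by
        have : ((i - 1 : ℕ) : ℝ) / N ≤ 1 := by
          rw [div_le_one hN']
          exact_mod_cast (by omega : i - 1 ≤ N)
        nlinarith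
      have hb2 : ((i + 1 : ℕ) : ℝ) / N * δ ≤ δ := by
        have : ((i + 1 : ℕ) : ℝ) / N ≤ 1 := by
          rw [div_le_one hN']
          exact_mod_cast (by omega : i + 1 ≤ N)
        nlinarith
      have h4 : dist (itr N y k (i - 1)) (itr N y k (i + 1)) < ε / 4 := by
        have e1 := dist_triangle4 (itr N y k (i - 1)) (x (i - 1)) (x (i + 1)) (itr N y k (i + 1))
        have e2 := hs i h0 h1
        rw [dist_comm (x (i + 1))] at e1
        linarith
      have h5 := h.busemann (h.md_spec (by linarith)) (hx i h0 h1) h4 (by linarith [hs i h0 h1])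
        (by linarith) (by linarith)
      refine h5.trans ?_
      have c1 : ((i - 1 : ℕ) : ℝ) = i - 1 := by
        rw [Nat.cast_sub (by omega)]; simp
      have c2 : ((i + 1 : ℕ) : ℝ) = i + 1 := by push_cast; ring
      rw [c1] at h2
      rw [c2] at h3
      have : ((i : ℝ) - 1) / N * δ + (i + 1) / N * δ = 2 * (i / N * δ) := by ring
      linarith
  -- step distances
  have hadj : ∀ k i, 0 < i → i < N →
      dist (itr N y k (i - 1)) (itr N y k (i + 1)) < ε / 4 := by
    intro k i h0 h1
    have h2 := (inv k).2.2 (i - 1) (by omega)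
    have h3 := (inv k).2.2 (i + 1) (by omega)
    have hb1 : ((i - 1 : ℕ) : ℝ) / N * δ ≤ δ := by
      have : ((i - 1 : ℕ) : ℝ) / N ≤ 1 := by
        rw [div_le_one hN']
        exact_mod_cast (by omega : i - 1 ≤ N)
      nlinarith
    have hb2 : ((i + 1 : ℕ) : ℝ) / N * δ ≤ δ := by
      have : ((i + 1 : ℕ) : ℝ) / N ≤ 1 := by
        rw [div_le_one hN']
        exact_mod_cast (by omega : i + 1 ≤ N)
      nlinarith
    have e1 := dist_triangle4 (itr N y k (i - 1)) (x (i - 1)) (x (i + 1)) (itr N y k (i + 1))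
    have e2 := hs i h0 h1
    rw [dist_comm (x (i + 1))] at e1
    linarith
  have hclose : ∀ k i, i ≤ N → dist (itr N y k i) (x i) ≤ δ := by
    intro k i hi
    refine ((inv k).2.2 i hi).trans ?_
    have : (i : ℝ) / N ≤ 1 := by
      rw [div_le_one hN']
      exact_mod_cast hi
    nlinarith
  -- contraction
  obtain ⟨ρ, hρ⟩ : ∃ ρ : ℝ, ρ = 1 - 1 / N ^ 2 := ⟨_, rfl⟩
  have hN2 : (0 : ℝ) < (N : ℝ) ^ 2 := by positivity
  have hN1 : (1 : ℝ) ≤ N := by exact_mod_cast hN
  have hρ0 : 0 ≤ ρ := by
    rw [hρ, sub_nonneg, div_le_one hN2]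
    nlinarith
  have hρ1 : ρ < 1 := by
    rw [hρ]
    have : 0 < 1 / (N : ℝ) ^ 2 := by positivity
    linarith
  have contr : ∀ k i, i ≤ N → dist (itr N y k i) (itr N y (k + 1) i) ≤
      ε * (i * (N - i)) * ρ ^ k := by
    intro k
    induction k with
    | zero =>
      intro i hi
      have hi' : (i : ℝ) ≤ N := by exact_mod_cast hi
      rcases Nat.eq_zero_or_pos i with h0 | h0
      · rw [h0, (inv 0).1, (inv 1).1, dist_self]
        simp
      rcases eq_or_lt_of_le hi with h1 | h1
      · rw [h1, (inv 0).2.1, (inv 1).2.1, dist_self]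
        simp
      have e1 := hclose 0 i hi
      have e2 := hclose 1 i hi
      have e3 := dist_triangle (itr N y 0 i) (x i) (itr N y 1 i)
      rw [dist_comm (x i)] at e3
      have e4 : (1 : ℝ) ≤ i := by exact_mod_cast h0
      have e5 : (1 : ℝ) ≤ N - i := by
        have : ((i + 1 : ℕ) : ℝ) ≤ N := by exact_mod_cast h1
        push_cast at this
        linarith
      have e6 : (1 : ℝ) ≤ i * (N - i) := by nlinarith
      rw [pow_zero, mul_one]
      nlinarith
    | succ k ih =>
      intro i hi
      rcases Nat.eq_zero_or_pos i with h0 | h0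
      · rw [h0, (inv (k + 1)).1, (inv (k + 1 + 1)).1, dist_self]
        simp
      rcases eq_or_lt_of_le hi with h1 | h1
      · rw [h1, (inv (k + 1)).2.1, (inv (k + 1 + 1)).2.1, dist_self]
        simp
      change dist (stp N (itr N y k) i) (stp N (itr N y (k + 1)) i) ≤ _
      rw [stp_mid _ _ h0 h1, stp_mid _ _ h0 h1]
      have h2 := ih (i - 1) (by omega)
      have h3 := ih (i + 1) (by omega)
      have a1 : dist (itr N y k (i - 1)) (itr N y (k + 1) (i - 1)) < ε / 4 := by
        have e1 := hclose k (i - 1) (by omega)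
        have e2 := hclose (k + 1) (i - 1) (by omega)
        have e3 := dist_triangle (itr N y k (i - 1)) (x (i - 1)) (itr N y (k + 1) (i - 1))
        rw [dist_comm (x (i - 1))] at e3
        linarith
      have a2 : dist (itr N y k (i + 1)) (itr N y (k + 1) (i + 1)) < ε / 4 := by
        have e1 := hclose k (i + 1) (by omega)
        have e2 := hclose (k + 1) (i + 1) (by omega)
        have e3 := dist_triangle (itr N y k (i + 1)) (x (i + 1)) (itr N y (k + 1) (i + 1))
        rw [dist_comm (x (i + 1))] at e3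
        linarith
      have h5 := h.busemann (h.md_spec (by linarith [hadj k i h0 h1]))
        (h.md_spec (by linarith [hadj (k + 1) i h0 h1])) (hadj k i h0 h1) (hadj (k + 1) i h0 h1)
        a1 a2
      refine h5.trans ?_
      have c1 : ((i - 1 : ℕ) : ℝ) = i - 1 := by
        rw [Nat.cast_sub (by omega)]; simp
      have c2 : ((i + 1 : ℕ) : ℝ) = i + 1 := by push_cast; ring
      rw [c1] at h2
      rw [c2] at h3
      have hi1 : (1 : ℝ) ≤ i := by exact_mod_cast h0
      have hi2 : (i : ℝ) ≤ N := by exact_mod_cast hi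
      have c3 : ε * (((i : ℝ) - 1) * (N - (i - 1))) * ρ ^ k + ε * ((i + 1) * (N - (i + 1))) * ρ ^ k
          = 2 * (ε * (i * (N - i) - 1) * ρ ^ k) := by ring
      have c4 : (i : ℝ) * (N - i) - 1 ≤ i * (N - i) * ρ := by
        rw [hρ]
        have : (i : ℝ) * (N - i) * (1 / N ^ 2) ≤ 1 := by
          rw [mul_one_div, div_le_one hN2]
          nlinarith
        linarith
      have hk : 0 ≤ ρ ^ k := pow_nonneg hρ0 k
      have c5 : ε * (i * (N - i) - 1) * ρ ^ k ≤ ε * (i * (N - i)) * ρ ^ (k + 1) := by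
        rw [pow_succ]
        have := mul_le_mul_of_nonneg_left c4 hε.le
        have := mul_le_mul_of_nonneg_right this hk
        linarith
      linarith
  -- limits
  have hcau : ∀ i, i ≤ N → ∃ z, Tendsto (fun k => itr N y k i) atTop (𝓝 z) := by
    intro i hi
    refine cauchySeq_tendsto_of_complete ?_
    refine cauchySeq_of_le_geometric ρ (ε * (i * (N - i))) hρ1 fun k => contr k i hi
  choose z hz using fun i : {i : ℕ // i ≤ N} => hcau i.1 i.2
  obtain ⟨w, hw⟩ : ∃ w : ℕ → P, w = fun i => if hi : i ≤ N then z ⟨i, hi⟩ else y' := ⟨_, rfl⟩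
  have hwz : ∀ i, i ≤ N → Tendsto (fun k => itr N y k i) atTop (𝓝 (w i)) := by
    intro i hi
    rw [hw]
    simp only [dif_pos hi]
    exact hz ⟨i, hi⟩
  refine ⟨w, ?_, ?_, fun i h0 h1 => ?_, fun i hi => ?_⟩
  · refine tendsto_nhds_unique (hwz 0 (Nat.zero_le _)) ?_
    simp only [(inv _).1]
    exact tendsto_const_nhds
  · refine tendsto_nhds_unique (hwz N le_rfl) ?_
    simp only [(inv _).2.1]
    exact tendsto_const_nhds
  · have t1 := hwz (i - 1) (by omega)
    have t2 := (hwz i (by omega)).comp (tendsto_add_atTop_nat 1)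
    have t3 := hwz (i + 1) (by omega)
    have hm : ∀ k, Mid (itr N y k (i - 1)) (itr N y (k + 1) i) (itr N y k (i + 1)) := by
      intro k
      change Mid _ (stp N (itr N y k) i) _
      rw [stp_mid _ _ h0 h1]
      exact h.md_spec (by linarith [hadj k i h0 h1])
    refine ⟨tendsto_nhds_unique (t1.dist t2) ?_, tendsto_nhds_unique (t2.dist t3) ?_⟩
    · refine ((t1.dist t3).div_const 2).congr fun k => ?_
      exact (hm k).1.symm
    · refine ((t1.dist t3).div_const 2).congr fun k => ?_
      exact (hm k).2.symm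
  · refine le_of_tendsto ((hwz i hi).dist tendsto_const_nhds) (Eventually.of_forall fun k => ?_)
    exact (inv k).2.2 i hi

end Pool.Agent.Helper37.CH
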