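import Pool.Agent.Helper37.CH.Chain

/-!
# From discrete geodesics to local geodesics
-/

set_option autoImplicit false

namespace Pool.Agent.Helper37.CH

open Set Filter Topology

variable {P : Type} [MetricSpace P] {ε : ℝ}

/-- A point on the geodesic from `x` to `y`. -/
noncomputable def pt (x y : P) (t : ℝ) : P := by
  classical
  exact if h : ∃ z : P, dist x z = t * dist x y ∧ dist z y = (1 - t) * dist x y then h.choose else x

theorem LocCat.pt_spec (h : LocCat P ε) {x y : P} (hxy : dist x y < ε) {t : ℝ} (h0 : 0 ≤ t)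
    (h1 : t ≤ 1) : dist x (pt x y t) = t * dist x y ∧ dist (pt x y t) y = (1 - t) * dist x y := by
  obtain ⟨z, hz1, hz2, -⟩ := h.geo x y hxy t h0 h1
  have hz : ∃ z : P, dist x z = t * dist x y ∧ dist z y = (1 - t) * dist x y := ⟨z, hz1, hz2⟩
  unfold pt
  rw [dif_pos hz]
  exact hz.choose_spec

/-- Stewart's inequality for each point of the geodesic. -/
theorem LocCat.stewart (h : LocCat P ε) {x y z : P} (hxy : dist x y < ε) {t : ℝ} (h0 : 0 ≤ t)
    (h1 : t ≤ 1) (hz1 : dist x z = t * dist x y) (hz2 : dist z y = (1 - t) * dist x y) {p : P}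
    (hpx : dist p x < ε) (hpy : dist p y < ε) :
    dist p z ^ 2 ≤ (1 - t) * dist p x ^ 2 + t * dist p y ^ 2 - t * (1 - t) * dist x y ^ 2 := by
  obtain ⟨z', h2, h3, h4⟩ := h.geo x y hxy t h0 h1
  have hd : 0 ≤ dist x y := dist_nonneg
  have h5 := h4 z (by rw [dist_comm, hz1]; nlinarith [h.pos]) (by rw [hz2]; nlinarith [h.pos])
  rw [dist_comm z x, hz1, hz2] at h5
  have h6 : dist z z' ^ 2 ≤ 0 := by nlinarith
  have h7 : z = z' :=
    dist_eq_zero.1 (pow_eq_zero_iff (two_ne_zero) |>.1 (le_antisymm h6 (sq_nonneg _)))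
  rw [h7]
  exact h4 p hpx hpy

/-- Distances between points of a geodesic. -/
theorem LocCat.dist_pt (h : LocCat P ε) {x y z z' : P} (hxy : dist x y < ε) {s t : ℝ} (h0 : 0 ≤ s)
    (hst : s ≤ t) (h1 : t ≤ 1) (hz1 : dist x z = s * dist x y) (hz2 : dist z y = (1 - s) * dist x y)
    (hz1' : dist x z' = t * dist x y) (hz2' : dist z' y = (1 - t) * dist x y) :
    dist z z' = (t - s) * dist x y := by
  have hd : 0 ≤ dist x y := dist_nonneg
  have hε := h.pos
  refine le_antisymm ?_ ?_
  · have h5 := h.stewart hxy (h0.trans hst) h1 hz1' hz2' (p := z)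
      (by rw [dist_comm, hz1]; nlinarith) (by rw [hz2]; nlinarith)
    rw [dist_comm z x, hz1, hz2] at h5
    have h6 : dist z z' ^ 2 ≤ ((t - s) * dist x y) ^ 2 := by nlinarith
    exact abs_le_of_sq_le_sq' h6 (mul_nonneg (sub_nonneg.2 hst) hd) |>.2
  · have := dist_triangle x z z'
    rw [hz1, hz1'] at this
    linarith

/-- The broken geodesic through the points of a chain. -/
noncomputable def brk (N : ℕ) (z : ℕ → P) (t : ℝ) : P :=
  pt (z ⌊N * max 0 (min 1 t)⌋₊) (z (⌊N * max 0 (min 1 t)⌋₊ + 1)) (Int.fract (N * max 0 (min 1 t)))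

theorem LocCat.pt_zero (h : LocCat P ε) {x y : P} (hxy : dist x y < ε) : pt x y 0 = x := by
  have := (h.pt_spec hxy le_rfl zero_le_one).1
  rw [zero_mul] at this
  exact (dist_eq_zero.1 this).symm

theorem LocCat.pt_one (h : LocCat P ε) {x y : P} (hxy : dist x y < ε) : pt x y 1 = y := by
  have := (h.pt_spec hxy zero_le_one le_rfl).2
  rw [sub_self, zero_mul] at this
  exact dist_eq_zero.1 this

theorem Mid.eq {a m b : P} (h : Mid a m b) : dist a m = dist m b := h.1.trans h.2.symm

/-- A chain with the midpoint property gives a local geodesic. We suppose that the chain is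
constant from `N` on. -/
theorem LocCat.exists_lgeo (h : LocCat P ε) {N : ℕ} (hN : 0 < N) (z : ℕ → P)
    (hz : ∀ i, 0 < i → i < N → Mid (z (i - 1)) (z i) (z (i + 1)))
    (h1 : dist (z 0) (z 1) < ε) :
    ∃ γ : ℝ → P, LGeo γ (N * dist (z 0) (z 1)) ∧ (∀ i ≤ N, γ ((i : ℝ) / N) = z i) ∧
      ∀ i < N, ∀ t : ℝ, (i : ℝ) / N ≤ t → t ≤ ((i + 1 : ℕ) : ℝ) / N →
        dist (z i) (γ t) ≤ dist (z 0) (z 1) := by
  have hN' : (0 : ℝ) < N := by exact_mod_cast hN
  have hε := h.pos
  obtain ⟨s, hs⟩ : ∃ s, s = dist (z 0) (z 1) := ⟨_, rfl⟩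
  have hs0 : 0 ≤ s := hs ▸ dist_nonneg
  have hstep : ∀ i, i < N → dist (z i) (z (i + 1)) = s := by
    intro i
    induction i with
    | zero => exact fun _ => hs.symm
    | succ i ih =>
      intro h2
      have h3 := (hz (i + 1) (Nat.succ_pos i) h2).eq
      rw [Nat.add_sub_cancel] at h3
      rw [← h3]
      exact ih (by omega)
  rw [← hs] at h1 ⊢
  have htwo : ∀ i, 0 < i → i < N → dist (z (i - 1)) (z (i + 1)) = 2 * s := by
    intro i h2 h3
    have h4 := (hz i h2 h3).2
    rw [hstep i h3] at h4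
    linarith
  -- the points with parameter in `[i/N, (i+1)/N]`
  obtain ⟨γ, hγ⟩ : ∃ γ : ℝ → P, γ = fun t => if 1 ≤ t then z N else brk N z t := ⟨_, rfl⟩
  have hγ1 : ∀ t, 1 ≤ t → γ t = z N := fun t ht => by rw [hγ]; exact if_pos ht
  have hγ2 : ∀ i : ℕ, i < N → ∀ τ : ℝ, 0 ≤ τ → τ < 1 →
      γ ((i + τ) / N) = pt (z i) (z (i + 1)) τ := by
    intro i hi τ h2 h3
    have h4 : ((i : ℝ) + 1) ≤ N := by exact_mod_cast hi
    have h5 : ((i : ℝ) + τ) / N < 1 := by
      rw [div_lt_one hN']
      linarith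
    have h6 : 0 ≤ ((i : ℝ) + τ) / N := by positivity
    rw [hγ]
    simp only [if_neg (not_le.2 h5)]
    unfold brk
    rw [min_eq_right h5.le, max_eq_right h6, mul_div_cancel₀ _ hN'.ne']
    have h7 : ⌊(i : ℝ) + τ⌋₊ = i := by
      rw [Nat.floor_eq_iff (by positivity)]
      constructor <;> linarith
    have h8 : Int.fract ((i : ℝ) + τ) = τ := by
      rw [Int.fract_natCast_add, Int.fract_eq_self]
      exact ⟨h2, h3⟩
    rw [h7, h8]
  have hγ3 : ∀ i : ℕ, i < N → ∀ τ : ℝ, 0 ≤ τ → τ ≤ 1 →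
      dist (z i) (γ ((i + τ) / N)) = τ * s ∧ dist (γ ((i + τ) / N)) (z (i + 1)) = (1 - τ) * s := by
    intro i hi τ h2 h3
    rcases eq_or_lt_of_le h3 with h4 | h4
    · subst h4
      have h5 : γ (((i : ℝ) + 1) / N) = z (i + 1) := by
        rcases eq_or_lt_of_le (Nat.succ_le_of_lt hi) with h6 | h6
        · have h7 : ((i : ℝ) + 1) / N = 1 := by
            rw [div_eq_one_iff_eq hN'.ne']
            exact_mod_cast h6
          rw [h7, hγ1 1 le_rfl]
          congr 1
          exact h6.symm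
        · have := hγ2 (i + 1) h6 0 le_rfl one_pos
          rw [add_zero] at this
          push_cast at this
          rw [this, h.pt_zero]
          rw [hstep _ h6]
          exact h1
      rw [h5, hstep i hi, dist_self]
      constructor <;> ring
    · rw [hγ2 i hi τ h2 h4]
      have := h.pt_spec (x := z i) (y := z (i + 1)) (by rw [hstep i hi]; exact h1) h2 h3
      rw [hstep i hi] at this
      exact this
  have hnode : ∀ i ≤ N, γ ((i : ℝ) / N) = z i := by
    intro i hi
    rcases eq_or_lt_of_le hi with h2 | h2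
    · rw [h2, div_self hN'.ne']
      exact hγ1 1 le_rfl
    · have := (hγ3 i h2 0 le_rfl zero_le_one).1
      rw [zero_mul, add_zero] at this
      exact (dist_eq_zero.1 this).symm
  have hsame : ∀ i : ℕ, i < N → ∀ τ τ' : ℝ, 0 ≤ τ → τ ≤ τ' → τ' ≤ 1 →
      dist (γ ((i + τ) / N)) (γ ((i + τ') / N)) = (τ' - τ) * s := by
    intro i hi τ τ' h2 h3 h4
    have h5 := hγ3 i hi τ h2 (h3.trans h4)
    have h6 := hγ3 i hi τ' (h2.trans h3) h4
    rw [← hstep i hi] at h5 h6 ⊢
    exact h.dist_pt (by rw [hstep i hi]; exact h1) h2 h3 h4 h5.1 h5.2 h6.1 h6.2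
  have hnext : ∀ i : ℕ, i + 1 < N → ∀ τ τ' : ℝ, 0 ≤ τ → τ ≤ 1 → 0 ≤ τ' → τ' ≤ 1 → τ' ≤ τ →
      dist (γ ((i + τ) / N)) (γ ((((i + 1 : ℕ) : ℝ) + τ') / N)) = (1 + τ' - τ) * s := by
    intro i hi τ τ' h2 h3 h4 h5 _
    have e1 := hγ3 i (by omega) τ h2 h3
    have e2 := hγ3 (i + 1) hi τ' h4 h5
    have e3 := htwo (i + 1) (Nat.succ_pos i) hi
    rw [Nat.add_sub_cancel] at e3
    refine le_antisymm ?_ ?_
    · have := dist_triangle (γ ((i + τ) / N)) (z (i + 1)) (γ ((((i + 1 : ℕ) : ℝ) + τ') / N))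
      rw [e1.2, e2.1] at this
      linarith
    · have := dist_triangle4 (z i) (γ ((i + τ) / N)) (γ ((((i + 1 : ℕ) : ℝ) + τ') / N))
        (z (i + 1 + 1))
      rw [e1.1, e2.2, e3] at this
      linarith
  refine ⟨γ, ⟨by positivity, fun t => ?_, ⟨1 / N, by positivity, fun a b h2 h3 h4 h5 => ?_⟩⟩,
    hnode, fun i hi t h2 h3 => ?_⟩
  · -- constant outside
    rcases le_total 1 t with h2 | h2
    · rw [min_eq_left h2, max_eq_right zero_le_one, hγ1 t h2, hγ1 1 le_rfl]
    · rcases le_total 0 t with h3 | h3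
      · rw [min_eq_right h2, max_eq_right h3]
      · rw [min_eq_right h2, max_eq_left h3]
        rcases eq_or_lt_of_le h3 with h4 | h4
        · rw [h4]
        rw [hγ]
        simp only [if_neg (not_le.2 (h4.trans one_pos)), if_neg (not_le.2 (one_pos (α := ℝ)))]
        unfold brk
        rw [min_eq_right h2, max_eq_left h3, min_eq_right zero_le_one, max_self]
  · -- local distances
    rcases eq_or_lt_of_le h3 with h6 | h6
    · rw [h6]
      simp
    have hb1 : (N : ℝ) * b ≤ N := by nlinarith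
    obtain ⟨i, hi⟩ : ∃ i, i = ⌊N * a⌋₊ := ⟨_, rfl⟩
    have hNa : 0 ≤ (N : ℝ) * a := by positivity
    have hi1 : (i : ℝ) ≤ N * a := hi ▸ Nat.floor_le hNa
    have hi2 : (N : ℝ) * a < i + 1 := hi ▸ Nat.lt_floor_add_one _
    have hi3 : i < N := by
      have : (i : ℝ) < N := by nlinarith
      exact_mod_cast this
    have ha : a = (i + (N * a - i)) / N := by field_simp; ring
    have h5' : N * b - N * a ≤ 1 := by
      have := mul_le_mul_of_nonneg_left h5 hN'.le
      rw [mul_one_div, div_self hN'.ne'] at this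
      linarith
    by_cases h7 : (N : ℝ) * b ≤ i + 1
    · have hb : b = (i + (N * b - i)) / N := by field_simp; ring
      rw [ha, hb, hsame i hi3 _ _ (by linarith) (by nlinarith) (by linarith)]
      field_simp
      ring
    · push Not at h7
      have hi4 : i + 1 < N := by
        have : ((i + 1 : ℕ) : ℝ) < N := by push_cast; linarith
        exact_mod_cast this
      have hb : b = (((i + 1 : ℕ) : ℝ) + (N * b - (i + 1))) / N := by
        push_cast
        field_simp
        ring
      rw [ha, hb, hnext i hi4 _ _ (by linarith) (by linarith) (by linarith) (by linarith)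
        (by linarith)]
      push_cast
      field_simp
      ring
  · have ht : t = (i + (N * t - i)) / N := by field_simp; ring
    rw [div_le_iff₀ hN'] at h2
    rw [le_div_iff₀ hN'] at h3
    push_cast at h3
    rw [ht, (hγ3 i hi _ (by linarith) (by linarith)).1]
    nlinarith

end Pool.Agent.Helper37.CH
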