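import Pool.Agent.Helper37.CH.Loc

/-!
# Local geodesics
-/

set_option autoImplicit false

namespace Pool.Agent.Helper37.CH

open Set

/-- A maximum principle for functions which are convex at small scales. -/
theorem le_zero_of_midconvex {g : ℝ → ℝ} (hg : ContinuousOn g (Icc 0 1)) (h0 : g 0 ≤ 0)
    (h1 : g 1 ≤ 0) {κ : ℝ} (hκ : 0 < κ)
    (h : ∀ t u, 0 ≤ u → u ≤ κ → 0 ≤ t - u → t + u ≤ 1 → g t ≤ (g (t - u) + g (t + u)) / 2) :
    ∀ t ∈ Icc (0 : ℝ) 1, g t ≤ 0 := by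
  obtain ⟨t₀, ht₀, hmax⟩ := isCompact_Icc.exists_isMaxOn (nonempty_Icc.2 (zero_le_one' ℝ)) hg
  have hmax' : ∀ t ∈ Icc (0 : ℝ) 1, g t ≤ g t₀ := fun t ht => hmax ht
  suffices hM : g t₀ ≤ 0 from fun t ht => (hmax' t ht).trans hM
  by_contra hM
  push Not at hM
  have hcl : IsCompact (Icc (0 : ℝ) 1 ∩ g ⁻¹' {g t₀}) := by
    refine IsCompact.of_isClosed_subset isCompact_Icc ?_ inter_subset_left
    exact hg.preimage_isClosed_of_isClosed isClosed_Icc isClosed_singleton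
  obtain ⟨t₁, ht₁, hlast⟩ := hcl.exists_isGreatest ⟨t₀, ht₀, rfl⟩
  obtain ⟨⟨h2, h3⟩, h4⟩ := ht₁
  have h4 : g t₁ = g t₀ := h4
  have h5 : 0 < t₁ := by
    rcases eq_or_lt_of_le h2 with h | h
    · rw [← h] at h4
      linarith
    · exact h
  have h6 : t₁ < 1 := by
    rcases eq_or_lt_of_le h3 with h | h
    · rw [h] at h4
      linarith
    · exact h
  obtain ⟨u, hu⟩ : ∃ u, u = min κ (min t₁ (1 - t₁)) := ⟨_, rfl⟩
  have hu0 : 0 < u := by
    rw [hu]
    exact lt_min hκ (lt_min h5 (by linarith))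
  have hu1 : u ≤ κ := by rw [hu]; exact min_le_left _ _
  have hu2 : u ≤ t₁ := by rw [hu]; exact (min_le_right _ _).trans (min_le_left _ _)
  have hu3 : u ≤ 1 - t₁ := by rw [hu]; exact (min_le_right _ _).trans (min_le_right _ _)
  have h7 := h t₁ u hu0.le hu1 (by linarith) (by linarith)
  have h8 := hmax' (t₁ - u) ⟨by linarith, by linarith⟩
  have h9 := hmax' (t₁ + u) ⟨by linarith, by linarith⟩
  have h10 : g (t₁ + u) = g t₀ := by linarith
  have := hlast ⟨⟨by linarith, by linarith⟩, h10⟩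
  linarith

variable {P : Type} [MetricSpace P] {ε : ℝ}

/-- `γ` is a local geodesic, parametrised proportionally to arc length on `[0, 1]` (and constant
outside this interval), of length `L`. -/
structure LGeo (γ : ℝ → P) (L : ℝ) : Prop where
  nonneg : 0 ≤ L
  out : ∀ t, γ t = γ (max 0 (min 1 t))
  loc : ∃ κ : ℝ, 0 < κ ∧ ∀ s t : ℝ, 0 ≤ s → s ≤ t → t ≤ 1 → t - s ≤ κ →
    dist (γ s) (γ t) = L * (t - s)

/-- Local geodesics are Lipschitz. -/
theorem LGeo.lip {γ : ℝ → P} {L : ℝ} (h : LGeo γ L) {s t : ℝ} (hs : 0 ≤ s) (hst : s ≤ t)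
    (ht : t ≤ 1) : dist (γ s) (γ t) ≤ L * (t - s) := by
  obtain ⟨κ, hκ, hloc⟩ := h.loc
  obtain ⟨n, hn⟩ := exists_nat_gt ((t - s) / κ)
  have key : ∀ m : ℕ, ∀ t, s ≤ t → t ≤ 1 → t - s ≤ m * κ → dist (γ s) (γ t) ≤ L * (t - s) := by
    intro m
    induction m with
    | zero =>
      intro t h1 _ h2
      have : t = s := by
        rw [Nat.cast_zero, zero_mul] at h2
        linarith
      rw [this]
      simp
    | succ m ih =>
      intro t h1 h2 h3
      by_cases h4 : t - s ≤ κ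
      · exact (hloc s t hs h1 h2 h4).le
      · push Not at h4
        have h5 := ih (t - κ) (by linarith) (by linarith) (by push_cast at h3; linarith)
        have h6 := hloc (t - κ) t (by linarith) (by linarith) h2 (by linarith)
        have := dist_triangle (γ s) (γ (t - κ)) (γ t)
        rw [h6] at this
        linarith
  refine key n t hst ht ?_
  rw [div_lt_iff₀ hκ] at hn
  exact hn.le

theorem LGeo.lip' {γ : ℝ → P} {L : ℝ} (h : LGeo γ L) {s t : ℝ} (hs : s ∈ Icc (0 : ℝ) 1)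
    (ht : t ∈ Icc (0 : ℝ) 1) : dist (γ s) (γ t) ≤ L * |s - t| := by
  rcases le_total s t with h1 | h1
  · rw [abs_sub_comm, abs_of_nonneg (sub_nonneg.2 h1)]
    exact h.lip hs.1 h1 ht.2
  · rw [abs_of_nonneg (sub_nonneg.2 h1), dist_comm]
    exact h.lip ht.1 h1 hs.2

theorem LGeo.continuousOn {γ : ℝ → P} {L : ℝ} (h : LGeo γ L) : ContinuousOn γ (Icc 0 1) := by
  have : LipschitzOnWith (Real.toNNReal L) γ (Icc 0 1) := by
    refine LipschitzOnWith.of_dist_le_mul fun s hs t ht => ?_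
    rw [Real.coe_toNNReal L h.nonneg, Real.dist_eq]
    exact h.lip' hs ht
  exact this.continuousOn

/-- The midpoint property. -/
theorem LGeo.mid {γ : ℝ → P} {L : ℝ} (h : LGeo γ L) : ∃ κ : ℝ, 0 < κ ∧ ∀ t u : ℝ, 0 ≤ u → u ≤ κ →
    0 ≤ t - u → t + u ≤ 1 → Mid (γ (t - u)) (γ t) (γ (t + u)) ∧
      dist (γ (t - u)) (γ (t + u)) = 2 * L * u := by
  obtain ⟨κ, hκ, hloc⟩ := h.loc
  refine ⟨κ / 2, by positivity, fun t u h1 h2 h3 h4 => ?_⟩
  have h5 := hloc (t - u) (t + u) h3 (by linarith) h4 (by linarith)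
  have h6 := hloc (t - u) t h3 (by linarith) (by linarith) (by linarith)
  have h7 := hloc t (t + u) (by linarith) (by linarith) h4 (by linarith)
  refine ⟨⟨?_, ?_⟩, ?_⟩
  · rw [h5, h6]; ring
  · rw [h5, h7]; ring
  · rw [h5]; ring

/-- Convexity of the distance between two local geodesics which are close. -/
theorem LGeo.convex (hP : LocCat P ε) {γ γ' : ℝ → P} {L L' : ℝ} (h : LGeo γ L) (h' : LGeo γ' L')
    (hc : ∀ t ∈ Icc (0 : ℝ) 1, dist (γ t) (γ' t) < ε / 4) {t : ℝ} (ht : t ∈ Icc (0 : ℝ) 1) :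
    dist (γ t) (γ' t) ≤ (1 - t) * dist (γ 0) (γ' 0) + t * dist (γ 1) (γ' 1) := by
  obtain ⟨κ, hκ, hm⟩ := h.mid
  obtain ⟨κ', hκ', hm'⟩ := h'.mid
  have hε := hP.pos
  have hL := h.nonneg
  have hL' := h'.nonneg
  obtain ⟨ν, hν⟩ : ∃ ν, ν = min (min κ κ') (min (ε / (16 * (L + 1))) (ε / (16 * (L' + 1)))) :=
    ⟨_, rfl⟩
  have hν0 : 0 < ν := by
    rw [hν]
    refine lt_min (lt_min hκ hκ') (lt_min ?_ ?_) <;> positivity
  have hν1 : ν ≤ κ := by rw [hν]; exact (min_le_left _ _).trans (min_le_left _ _)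
  have hν2 : ν ≤ κ' := by rw [hν]; exact (min_le_left _ _).trans (min_le_right _ _)
  have hν3 : ν ≤ ε / (16 * (L + 1)) := by
    rw [hν]; exact (min_le_right _ _).trans (min_le_left _ _)
  have hν4 : ν ≤ ε / (16 * (L' + 1)) := by
    rw [hν]; exact (min_le_right _ _).trans (min_le_right _ _)
  have hν5 : 2 * L * ν < ε / 4 := by
    have h1 : L * ν ≤ (L + 1) * (ε / (16 * (L + 1))) := by
      refine mul_le_mul (by linarith) hν3 hν0.le (by linarith)
    have h2 : (L + 1) * (ε / (16 * (L + 1))) = ε / 16 := by field_simp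
    linarith
  have hν6 : 2 * L' * ν < ε / 4 := by
    have h1 : L' * ν ≤ (L' + 1) * (ε / (16 * (L' + 1))) := by
      refine mul_le_mul (by linarith) hν4 hν0.le (by linarith)
    have h2 : (L' + 1) * (ε / (16 * (L' + 1))) = ε / 16 := by field_simp
    linarith
  have key := le_zero_of_midconvex
    (g := fun t => dist (γ t) (γ' t) - ((1 - t) * dist (γ 0) (γ' 0) + t * dist (γ 1) (γ' 1)))
    (by
      have hc1 : ContinuousOn γ (Icc 0 1) := LGeo.continuousOn h
      have hc2 : ContinuousOn γ' (Icc 0 1) := LGeo.continuousOn h'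
      refine ContinuousOn.sub (continuous_dist.comp_continuousOn (hc1.prodMk hc2)) ?_
      fun_prop)
    (by simp) (by simp) hν0 (by
      intro t u h1 h2 h3 h4
      obtain ⟨h5, h6⟩ := hm t u h1 (h2.trans hν1) h3 h4
      obtain ⟨h7, h8⟩ := hm' t u h1 (h2.trans hν2) h3 h4
      have h9 : 2 * L * u ≤ 2 * L * ν := by nlinarith
      have h10 : 2 * L' * u ≤ 2 * L' * ν := by nlinarith
      have := hP.busemann h5 h7 (by linarith) (by linarith) (hc _ ⟨h3, by linarith⟩)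
        (hc _ ⟨by linarith, h4⟩)
      linarith)
  have := key t ht
  linarith

theorem LGeo.ext {γ γ' : ℝ → P} {L L' : ℝ} (h : LGeo γ L) (h' : LGeo γ' L')
    (hc : ∀ t ∈ Icc (0 : ℝ) 1, γ t = γ' t) : γ = γ' := by
  funext t
  rw [h.out t, h'.out t]
  refine hc _ ⟨le_max_left _ _, max_le zero_le_one (min_le_left _ _)⟩

/-- Close local geodesics with the same ends coincide. -/
theorem LGeo.unique (hP : LocCat P ε) {γ γ' : ℝ → P} {L L' : ℝ} (h : LGeo γ L) (h' : LGeo γ' L')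
    (hc : ∀ t ∈ Icc (0 : ℝ) 1, dist (γ t) (γ' t) < ε / 4) (h0 : γ 0 = γ' 0) (h1 : γ 1 = γ' 1) :
    γ = γ' := by
  refine h.ext h' fun t ht => ?_
  have := h.convex hP h' hc ht
  rw [h0, h1, dist_self, dist_self, mul_zero, mul_zero, add_zero] at this
  exact dist_le_zero.1 this

theorem LGeo.length_unique {γ : ℝ → P} {L L' : ℝ} (h : LGeo γ L) (h' : LGeo γ L') : L = L' := by
  obtain ⟨κ, hκ, hm⟩ := h.loc
  obtain ⟨κ', hκ', hm'⟩ := h'.loc
  obtain ⟨u, hu⟩ : ∃ u, u = min (min κ κ') 1 := ⟨_, rfl⟩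
  have hu0 : 0 < u := by
    rw [hu]
    exact lt_min (lt_min hκ hκ') one_pos
  have h1 := hm 0 u le_rfl hu0.le (by rw [hu]; exact min_le_right _ _)
    (by rw [sub_zero, hu]; exact (min_le_left _ _).trans (min_le_left _ _))
  have h2 := hm' 0 u le_rfl hu0.le (by rw [hu]; exact min_le_right _ _)
    (by rw [sub_zero, hu]; exact (min_le_left _ _).trans (min_le_right _ _))
  rw [h1, sub_zero] at h2
  exact mul_right_cancel₀ hu0.ne' h2

end Pool.Agent.Helper37.CH
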