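import Mathlib

/-!
# Local geodesics in spaces of nonpositive curvature

A metric space is uniformly locally CAT(0) at the scale `ε` if any two points `x`, `y` at distance
less than `ε` are joined by a geodesic whose points `z` satisfy Stewart's inequality for all `p`
which are closer than `ε` to `x` and `y`.
-/

set_option autoImplicit false

namespace Pool.Agent.Helper37.CH

/-- Uniform local CAT(0) condition at the scale `ε`. -/
structure LocCat (P : Type) [MetricSpace P] (ε : ℝ) : Prop where
  pos : 0 < ε
  geo : ∀ x y : P, dist x y < ε → ∀ t : ℝ, 0 ≤ t → t ≤ 1 → ∃ z : P,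
    dist x z = t * dist x y ∧ dist z y = (1 - t) * dist x y ∧
      ∀ p : P, dist p x < ε → dist p y < ε →
        dist p z ^ 2 ≤ (1 - t) * dist p x ^ 2 + t * dist p y ^ 2 - t * (1 - t) * dist x y ^ 2

/-- Simple connectivity at the scale `δ`: the space is connected at this scale, and each cocycle
with values in a group which is defined for pairs of points at distance less than `δ` is a
coboundary. -/
structure ScAt (P : Type) [MetricSpace P] (δ : ℝ) : Prop where
  conn : ∀ x y : P, Relation.ReflTransGen (fun a b => dist a b < δ) x y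
  sc : ∀ (H : Type) [Group H] (c : P → P → H),
    (∀ x y z, dist x y < δ → dist y z < δ → dist x z < δ → c x y * c y z = c x z) →
      ∃ g : P → H, ∀ x y, dist x y < δ → c x y = (g x)⁻¹ * g y

variable {P : Type} [MetricSpace P] {ε : ℝ}

/-- `m` is a midpoint of `a` and `b`. -/
def Mid (a m b : P) : Prop := dist a m = dist a b / 2 ∧ dist m b = dist a b / 2

theorem Mid.symm {a m b : P} (h : Mid a m b) : Mid b m a :=
  ⟨by rw [dist_comm b m, h.2, dist_comm b a], by rw [dist_comm m a, h.1, dist_comm b a]⟩

theorem LocCat.exists_mid (h : LocCat P ε) {a b : P} (hab : dist a b < ε) : ∃ m, Mid a m b := by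
  obtain ⟨z, h1, h2, -⟩ := h.geo a b hab (1 / 2) (by norm_num) (by norm_num)
  exact ⟨z, by rw [h1]; ring, by rw [h2]; ring⟩

/-- The inequality of Bruhat and Tits. -/
theorem LocCat.cn (h : LocCat P ε) {a m b p : P} (hm : Mid a m b) (hab : dist a b < ε)
    (hpa : dist p a < ε) (hpb : dist p b < ε) :
    dist p m ^ 2 ≤ dist p a ^ 2 / 2 + dist p b ^ 2 / 2 - dist a b ^ 2 / 4 := by
  obtain ⟨z, h1, h2, h3⟩ := h.geo a b hab (1 / 2) (by norm_num) (by norm_num)
  have h0 : 0 ≤ dist a b := dist_nonneg
  have hma : dist m a < ε := by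
    rw [dist_comm, hm.1]
    linarith [h.pos]
  have hmb : dist m b < ε := by
    rw [hm.2]
    linarith [h.pos]
  have h4 := h3 m hma hmb
  have h5 : dist m z ^ 2 ≤ 0 := by
    rw [dist_comm m a, hm.1, hm.2] at h4
    nlinarith
  have h6 : m = z := by
    have : dist m z = 0 := by
      have := sq_nonneg (dist m z)
      exact pow_eq_zero_iff (two_ne_zero) |>.1 (le_antisymm h5 this)
    exact dist_eq_zero.1 this
  subst h6
  have := h3 p hpa hpb
  linarith

theorem LocCat.mid_unique (h : LocCat P ε) {a m m' b : P} (hm : Mid a m b) (hm' : Mid a m' b)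
    (hab : dist a b < ε) : m = m' := by
  have h0 : 0 ≤ dist a b := dist_nonneg
  have h1 : dist m' a < ε := by
    rw [dist_comm, hm'.1]
    linarith [h.pos]
  have h2 : dist m' b < ε := by
    rw [hm'.2]
    linarith [h.pos]
  have h3 := h.cn hm hab h1 h2
  rw [dist_comm m' a, hm'.1, hm'.2] at h3
  have h4 : dist m' m ^ 2 ≤ 0 := by nlinarith
  have : dist m' m = 0 := pow_eq_zero_iff (two_ne_zero) |>.1 (le_antisymm h4 (sq_nonneg _))
  exact (dist_eq_zero.1 this).symm

/-- Busemann convexity, midpoints with a common end. -/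
theorem LocCat.busemann_aux (h : LocCat P ε) {a b b' m m' : P} (hm : Mid a m b) (hm' : Mid a m' b')
    (hab : dist a b < ε) (hab' : dist a b' < ε) (hbb' : dist b b' < ε)
    (hmb : dist m' b < ε) : dist m m' ≤ dist b b' / 2 := by
  have h0 : 0 ≤ dist a b' := dist_nonneg
  have h1 : dist m' a < ε := by
    rw [dist_comm, hm'.1]
    linarith [h.pos]
  have h3 := h.cn (p := m') hm hab h1 hmb
  have h4 := h.cn (p := b) hm' hab' (by rwa [dist_comm]) hbb'
  rw [dist_comm m' a, hm'.1] at h3
  rw [dist_comm b m', dist_comm b a] at h4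
  have h5 : dist m' m ^ 2 ≤ (dist b b' / 2) ^ 2 := by nlinarith
  have h6 : 0 ≤ dist b b' / 2 := by positivity
  rw [dist_comm m m']
  exact abs_le_of_sq_le_sq' h5 h6 |>.2

/-- Busemann convexity for midpoints. -/
theorem LocCat.busemann (h : LocCat P ε) {a b a' b' m m' : P} (hm : Mid a m b) (hm' : Mid a' m' b')
    (hab : dist a b < ε / 4) (hab' : dist a' b' < ε / 4) (haa : dist a a' < ε / 4)
    (hbb : dist b b' < ε / 4) : dist m m' ≤ (dist a a' + dist b b') / 2 := by
  have hε := h.pos
  have h1 : dist a b' < ε / 2 := by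
    have := dist_triangle a b b'
    linarith
  obtain ⟨n, hn⟩ := h.exists_mid (a := a) (b := b') (by linarith)
  have h2 : dist n b' < ε / 2 := by
    rw [hn.2]
    have : 0 ≤ dist a b' := dist_nonneg
    linarith
  have h3 : dist n a < ε / 2 := by
    rw [dist_comm, hn.1]
    have : 0 ≤ dist a b' := dist_nonneg
    linarith
  have h4 : dist m n ≤ dist b b' / 2 := by
    refine h.busemann_aux hm hn (by linarith) (by linarith) (by linarith) ?_
    have := dist_triangle n b' b
    rw [dist_comm b' b] at this
    linarith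
  have h5 : dist n m' ≤ dist a a' / 2 := by
    rw [dist_comm n m', dist_comm a a']
    refine h.busemann_aux hm'.symm hn.symm (by rw [dist_comm]; linarith) (by rw [dist_comm]; linarith)
      (by rw [dist_comm]; linarith) ?_
    have := dist_triangle n a a'
    linarith
  have := dist_triangle m n m'
  linarith

end Pool.Agent.Helper37.CH
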