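import Pool.Agent.Helper37.CH.Interp

/-!
# Moving the end of a local geodesic
-/

set_option autoImplicit false

namespace Pool.Agent.Helper37.CH

open Set

variable {P : Type} [MetricSpace P] {ε : ℝ}

/-- Points of `[0, 1]` between the nodes. -/
theorem exists_node {N : ℕ} (hN : 0 < N) {t : ℝ} (h0 : 0 ≤ t) (h1 : t ≤ 1) :
    ∃ i < N, (i : ℝ) / N ≤ t ∧ t ≤ ((i + 1 : ℕ) : ℝ) / N := by
  have hN' : (0 : ℝ) < N := by exact_mod_cast hN
  rcases eq_or_lt_of_le h1 with h2 | h2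
  · subst h2
    refine ⟨N - 1, by omega, ?_, ?_⟩
    · rw [div_le_one hN']
      exact_mod_cast (by omega : N - 1 ≤ N)
    · rw [show N - 1 + 1 = N by omega, div_self hN'.ne']
  · refine ⟨⌊N * t⌋₊, ?_, ?_, ?_⟩
    · rw [Nat.floor_lt (by positivity)]
      nlinarith
    · rw [div_le_iff₀ hN', mul_comm]
      exact Nat.floor_le (by positivity)
    · rw [le_div_iff₀ hN', mul_comm]
      push_cast
      exact (Nat.lt_floor_add_one _).le

/-- Each point near the end of a local geodesic is the end of a nearby local geodesic. -/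
theorem LocCat.exists_move [CompleteSpace P] (h : LocCat P ε) {γ : ℝ → P} {L : ℝ} (hγ : LGeo γ L)
    (y' : P) (hy : dist (γ 1) y' < ε / 16) : ∃ γ' L', LGeo γ' L' ∧ γ' 0 = γ 0 ∧ γ' 1 = y' ∧
      ∀ t ∈ Icc (0 : ℝ) 1, dist (γ t) (γ' t) ≤ t * dist (γ 1) y' := by
  have hε := h.pos
  have hL := hγ.nonneg
  obtain ⟨κ, hκ, hmid⟩ := hγ.mid
  obtain ⟨d, hd⟩ : ∃ d, d = dist (γ 1) y' := ⟨_, rfl⟩
  have hd0 : 0 ≤ d := hd ▸ dist_nonneg
  rw [← hd] at hy ⊢
  obtain ⟨N₀, hN₀⟩ := exists_nat_gt (max (1 / κ) (32 * L / ε))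
  obtain ⟨N, hNe⟩ : ∃ N, N = N₀ + 1 := ⟨_, rfl⟩
  have hN : 0 < N := by omega
  have hN' : (0 : ℝ) < N := by exact_mod_cast hN
  have hN1 : 1 / (N : ℝ) ≤ κ := by
    have h1 : 1 / κ < N := by
      have := (le_max_left (1 / κ) (32 * L / ε)).trans_lt hN₀
      rw [hNe]
      push_cast
      linarith
    rw [div_lt_iff₀ hκ] at h1
    rw [div_le_iff₀ hN']
    linarith
  have hN2 : L / N < ε / 32 := by
    have h1 : 32 * L / ε < N := by
      have := (le_max_right (1 / κ) (32 * L / ε)).trans_lt hN₀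
      rw [hNe]
      push_cast
      linarith
    rw [div_lt_iff₀ hε] at h1
    rw [div_lt_iff₀ hN']
    linarith
  have hn : ∀ i : ℕ, i ≤ N → (i : ℝ) / N ≤ 1 := fun i hi => by
    rw [div_le_one hN']
    exact_mod_cast hi
  have hn0 : ∀ i : ℕ, 0 ≤ (i : ℝ) / N := fun i => by positivity
  have hmidx : ∀ i : ℕ, 0 < i → i < N → Mid (γ (((i - 1 : ℕ) : ℝ) / N)) (γ ((i : ℝ) / N))
      (γ (((i + 1 : ℕ) : ℝ) / N)) ∧
      dist (γ (((i - 1 : ℕ) : ℝ) / N)) (γ (((i + 1 : ℕ) : ℝ) / N)) = 2 * L * (1 / N) := by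
    intro i h1 h2
    have e1 : ((i - 1 : ℕ) : ℝ) / N = (i : ℝ) / N - 1 / N := by
      rw [Nat.cast_sub (by omega), Nat.cast_one]; ring
    have e2 : ((i + 1 : ℕ) : ℝ) / N = (i : ℝ) / N + 1 / N := by push_cast; ring
    have := hmid ((i : ℝ) / N) (1 / N) (by positivity) hN1 (by rw [← e1]; positivity)
      (by rw [← e2]; exact hn _ (by omega))
    rwa [← e1, ← e2] at this
  obtain ⟨z, hz0, hzN, hzm, hzc⟩ := h.exists_chain hN (fun i : ℕ => γ ((i : ℝ) / N))
    (fun i h1 h2 => (hmidx i h1 h2).1) (fun i h1 h2 => by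
      have := (hmidx i h1 h2).2
      rw [this]
      have : 2 * L * (1 / N) = 2 * (L / N) := by ring
      linarith) y' (by rw [div_self hN'.ne', ← hd]; exact hy)
  simp only [div_self hN'.ne', ← hd, Nat.cast_zero, zero_div] at hz0 hzN hzc
  have hs' : dist (z 0) (z 1) ≤ L / N + d := by
    have h1 := dist_triangle (z 0) (γ (((1 : ℕ) : ℝ) / N)) (z 1)
    have h2 := hzc 1 (by omega)
    have h3 := hγ.lip (s := 0) (t := ((1 : ℕ) : ℝ) / N) le_rfl (hn0 1) (hn 1 (by omega))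
    rw [hz0] at h1
    rw [dist_comm (z 1)] at h2
    have h4 : ((1 : ℕ) : ℝ) / N * d ≤ d := by
      have := hn 1 (by omega)
      nlinarith [hn0 1]
    have h5 : L * (((1 : ℕ) : ℝ) / N - 0) = L / N := by push_cast; ring
    rw [hz0]
    linarith
  obtain ⟨γ', h1, h2, h3⟩ := h.exists_lgeo hN z hzm (by linarith)
  have hγ0 : γ' 0 = γ 0 := by
    have := h2 0 (Nat.zero_le _)
    rw [Nat.cast_zero, zero_div] at this
    rw [this, hz0]
  have hγ1 : γ' 1 = y' := by
    have := h2 N le_rfl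
    rw [div_self hN'.ne'] at this
    rw [this, hzN]
  refine ⟨γ', _, h1, hγ0, hγ1, fun t ht => ?_⟩
  have hclose : ∀ t ∈ Icc (0 : ℝ) 1, dist (γ t) (γ' t) < ε / 4 := by
    intro t ht
    obtain ⟨i, hi, h4, h5⟩ := exists_node hN ht.1 ht.2
    have e1 := dist_triangle4 (γ t) (γ ((i : ℝ) / N)) (z i) (γ' t)
    have e2 := hγ.lip (hn0 i) h4 ht.2
    have e3 := hzc i hi.le
    have e4 := h3 i hi t h4 h5
    rw [dist_comm (γ t) (γ ((i : ℝ) / N))] at e1
    rw [dist_comm (z i)] at e3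
    have e5 : (i : ℝ) / N * d ≤ d := by
      have := hn i hi.le
      nlinarith [hn0 i]
    have e6 : L * (t - (i : ℝ) / N) ≤ L / N := by
      have : t - (i : ℝ) / N ≤ 1 / N := by
        push_cast at h5
        rw [add_div] at h5
        linarith
      have := mul_le_mul_of_nonneg_left this hL
      rwa [mul_one_div] at this
    linarith
  have := hγ.convex h h1 hclose ht
  rw [hγ0, hγ1, dist_self, mul_zero, zero_add, ← hd] at this
  exact this

end Pool.Agent.Helper37.CH
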