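import Pool.Agent.Helper37.CH.Trans

/-!
# The quadruple inequality
-/

set_option autoImplicit false

namespace Pool.Agent.Helper37.CH

open Set

variable {P : Type} [MetricSpace P] {ε : ℝ}

/-- The quadruple inequality. -/
theorem LocCat.quadruple (h : LocCat P ε) {x₁ x₂ x₃ x₄ : P} (h13 : dist x₁ x₃ < ε)
    (h12 : dist x₁ x₂ < ε) (h23 : dist x₂ x₃ < ε) (h14 : dist x₁ x₄ < ε) (h34 : dist x₃ x₄ < ε) :
    dist x₁ x₃ ^ 2 + dist x₂ x₄ ^ 2 ≤
      dist x₂ x₃ ^ 2 + dist x₁ x₄ ^ 2 + 2 * dist x₁ x₂ * dist x₃ x₄ := by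
  rcases eq_or_lt_of_le (dist_nonneg (x := x₁) (y := x₂)) with h1 | h1
  · have : x₁ = x₂ := dist_eq_zero.1 h1.symm
    subst this
    simp
  rcases eq_or_lt_of_le (dist_nonneg (x := x₃) (y := x₄)) with h2 | h2
  · have : x₃ = x₄ := dist_eq_zero.1 h2.symm
    subst this
    rw [dist_self, mul_zero, add_zero, add_comm]
  obtain ⟨p, hp⟩ : ∃ p, p = dist x₁ x₂ := ⟨_, rfl⟩
  obtain ⟨q, hq⟩ : ∃ q, q = dist x₃ x₄ := ⟨_, rfl⟩
  rw [← hp] at h1 h12 ⊢
  rw [← hq] at h2 h34 ⊢
  have hpq : 0 < p + q := by linarith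
  obtain ⟨y, hy1, hy2, hy3⟩ := h.geo x₁ x₃ h13 (p / (p + q)) (by positivity)
    (by rw [div_le_one hpq]; linarith)
  have s1 := hy3 x₂ (by rw [dist_comm, ← hp]; exact h12) h23
  have s2 := hy3 x₄ (by rw [dist_comm]; exact h14) (by rw [dist_comm, ← hq]; exact h34)
  have e1 : 1 - p / (p + q) = q / (p + q) := by field_simp; ring
  rw [e1, dist_comm x₂ x₁, ← hp] at s1
  rw [e1, dist_comm x₄ x₁, dist_comm x₄ x₃, ← hq] at s2
  have s3 : dist x₂ x₄ ≤ dist x₂ y + dist x₄ y := by
    rw [dist_comm x₄ y]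
    exact dist_triangle _ _ _
  have n1 : 0 ≤ dist x₂ x₄ := dist_nonneg
  have n2 : 0 ≤ dist x₂ y := dist_nonneg
  have n3 : 0 ≤ dist x₄ y := dist_nonneg
  generalize dist x₂ x₄ = A at *
  generalize dist x₂ y = u at *
  generalize dist x₄ y = w at *
  generalize dist x₁ x₃ = B at *
  generalize dist x₂ x₃ = C at *
  generalize dist x₁ x₄ = D at *
  have t1 : (p + q) * u ^ 2 ≤ q * p ^ 2 + p * C ^ 2 - p * q / (p + q) * B ^ 2 := by
    have := mul_le_mul_of_nonneg_left s1 hpq.le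
    refine this.trans (le_of_eq ?_)
    field_simp
  have t2 : (p + q) * w ^ 2 ≤ q * D ^ 2 + p * q ^ 2 - p * q / (p + q) * B ^ 2 := by
    have := mul_le_mul_of_nonneg_left s2 hpq.le
    refine this.trans (le_of_eq ?_)
    field_simp
  have t3 : p * q * A ^ 2 ≤ (p + q) * (q * u ^ 2 + p * w ^ 2) := by
    have e2 : A ^ 2 ≤ (u + w) ^ 2 := by nlinarith
    have e3 : p * q * A ^ 2 ≤ p * q * (u + w) ^ 2 := mul_le_mul_of_nonneg_left e2 (by positivity)
    nlinarith [sq_nonneg (q * u - p * w)]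
  have t4 : (p + q) * (q * u ^ 2 + p * w ^ 2) ≤ p * q * (C ^ 2 + D ^ 2 + 2 * p * q - B ^ 2) := by
    have e2 := mul_le_mul_of_nonneg_left t1 h2.le
    have e3 := mul_le_mul_of_nonneg_left t2 h1.le
    have e4 : q * (p * q / (p + q) * B ^ 2) + p * (p * q / (p + q) * B ^ 2) = p * q * B ^ 2 := by
      field_simp
      ring
    nlinarith
  have t5 : p * q * A ^ 2 ≤ p * q * (C ^ 2 + D ^ 2 + 2 * p * q - B ^ 2) := t3.trans t4
  have t6 := le_of_mul_le_mul_left t5 (by positivity)
  linarith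

/-- The inequality for the midpoints of two opposite sides of a quadrilateral. -/
theorem LocCat.quad (h : LocCat P ε) {a b a' b' m m' : P} (hm : Mid a m b) (hm' : Mid a' m' b')
    (h1 : dist a b < ε / 4) (h2 : dist a' b' < ε / 4) (h3 : dist a a' < ε / 4)
    (h4 : dist b b' < ε / 4) :
    dist m m' ^ 2 ≤ dist a a' ^ 2 / 2 + dist b b' ^ 2 / 2 - (dist a b - dist a' b') ^ 2 / 4 := by
  have hε := h.pos
  have e1 : dist a b' < ε / 2 := by
    have := dist_triangle a b b'
    linarith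
  have e2 : dist b a' < ε / 2 := by
    have := dist_triangle b a a'
    rw [dist_comm b a] at this
    linarith
  have e3 : dist m' a < ε := by
    have := dist_triangle m' a' a
    rw [dist_comm m' a', hm'.1, dist_comm a' a] at this
    linarith
  have e4 : dist m' b < ε := by
    have := dist_triangle m' b' b
    rw [hm'.2, dist_comm b' b] at this
    linarith
  have q1 := h.cn (p := m') hm (by linarith) e3 e4
  have q2 := h.cn (p := a) hm' (by linarith) (by linarith) (by linarith)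
  have q3 := h.cn (p := b) hm' (by linarith) (by linarith) (by linarith)
  have q4 := h.quadruple (x₁ := a) (x₂ := b) (x₃ := b') (x₄ := a') (by linarith) (by linarith)
    (by linarith) (by linarith) (by rw [dist_comm]; linarith)
  rw [dist_comm m' m] at q1
  rw [dist_comm a m'] at q2
  rw [dist_comm b m'] at q3
  rw [dist_comm b' a'] at q4
  nlinarith

end Pool.Agent.Helper37.CH
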