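import Pool.Agent.Helper37.CH.Move

/-!
# Transport of local geodesics and uniqueness
-/

set_option autoImplicit false

namespace Pool.Agent.Helper37.CH

open Set Relation

variable {P : Type} [MetricSpace P] {ε δ : ℝ}

theorem clamp_mem (t : ℝ) : max 0 (min 1 t) ∈ Icc (0 : ℝ) 1 :=
  ⟨le_max_left _ _, max_le zero_le_one (min_le_left _ _)⟩

theorem clamp_eq {t : ℝ} (h : t ∈ Icc (0 : ℝ) 1) : max 0 (min 1 t) = t := by
  rw [min_eq_right h.2, max_eq_right h.1]

/-- The beginning of a local geodesic. -/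
theorem LGeo.scale {γ : ℝ → P} {L : ℝ} (h : LGeo γ L) {u : ℝ} (hu : u ∈ Icc (0 : ℝ) 1) :
    LGeo (fun t => γ (u * max 0 (min 1 t))) (L * u) := by
  refine ⟨mul_nonneg h.nonneg hu.1, fun t => ?_, ?_⟩
  · rw [clamp_eq (clamp_mem t)]
  · obtain ⟨κ, hκ, hl⟩ := h.loc
    refine ⟨κ, hκ, fun s t h1 h2 h3 h4 => ?_⟩
    rw [clamp_eq ⟨h1, h2.trans h3⟩, clamp_eq ⟨h1.trans h2, h3⟩]
    rw [hl (u * s) (u * t) (mul_nonneg hu.1 h1) (mul_le_mul_of_nonneg_left h2 hu.1)
      (by have := hu.1; have := hu.2; nlinarith) (by have := hu.1; have := hu.2; nlinarith)]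
    ring

/-- The reversed local geodesic. -/
theorem LGeo.rev {γ : ℝ → P} {L : ℝ} (h : LGeo γ L) : LGeo (fun t => γ (1 - t)) L := by
  refine ⟨h.nonneg, fun t => ?_, ?_⟩
  · rw [h.out (1 - t)]
    congr 1
    rcases le_total t 0 with h1 | h1
    · rw [min_eq_left (show (1 : ℝ) ≤ 1 - t by linarith), min_eq_right (show t ≤ 1 by linarith),
        max_eq_left h1, max_eq_right zero_le_one, sub_zero]
    · rw [min_eq_right (show 1 - t ≤ (1 : ℝ) by linarith)]
      rcases le_total t 1 with h2 | h2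
      · rw [min_eq_right h2, max_eq_right h1, max_eq_right (by linarith)]
      · rw [min_eq_left h2, max_eq_left (by linarith), max_eq_right zero_le_one, sub_self]
  · obtain ⟨κ, hκ, hl⟩ := h.loc
    refine ⟨κ, hκ, fun s t h1 h2 h3 h4 => ?_⟩
    rw [dist_comm, hl (1 - t) (1 - s) (by linarith) (by linarith) (by linarith) (by linarith)]
    ring

/-- Close points are joined by a local geodesic. -/
theorem LocCat.lgeo_of_lt (h : LocCat P ε) {x y : P} (hxy : dist x y < ε) :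
    LGeo (fun t => pt x y (max 0 (min 1 t))) (dist x y) := by
  refine ⟨dist_nonneg, fun t => ?_, ⟨1, one_pos, fun s t h1 h2 h3 _ => ?_⟩⟩
  · rw [clamp_eq (clamp_mem t)]
  · rw [clamp_eq ⟨h1, h2.trans h3⟩, clamp_eq ⟨h1.trans h2, h3⟩]
    have e1 := h.pt_spec hxy h1 (h2.trans h3)
    have e2 := h.pt_spec hxy (h1.trans h2) h3
    rw [h.dist_pt hxy h1 h2 h3 e1.1 e1.2 e2.1 e2.2]
    ring

/-- The local geodesics from `x` to `y`. -/
def Eg (x y : P) : Type := {γ : ℝ → P // (∃ L, LGeo γ L) ∧ γ 0 = x ∧ γ 1 = y}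

/-- The constant geodesic. -/
def Eg.const (x : P) : Eg x x :=
  ⟨fun _ => x, ⟨0, le_rfl, fun _ => rfl, ⟨1, one_pos, fun s t _ _ _ _ => by simp⟩⟩, rfl, rfl⟩

theorem Eg.eq_of_near (hP : LocCat P ε) {x y : P} {γ γ' : Eg x y}
    (h : ∀ t ∈ Icc (0 : ℝ) 1, dist (γ.1 t) (γ'.1 t) < ε / 4) : γ = γ' := by
  obtain ⟨L, hL⟩ := γ.2.1
  obtain ⟨L', hL'⟩ := γ'.2.1
  exact Subtype.ext (hL.unique hP hL' h (γ.2.2.1.trans γ'.2.2.1.symm)
    (γ.2.2.2.trans γ'.2.2.2.symm))

section

variable [CompleteSpace P]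

theorem Eg.exists_tr (hP : LocCat P ε) {x y y' : P} (hy : dist y y' < ε / 16) (γ : Eg x y) :
    ∃ γ' : Eg x y', ∀ t ∈ Icc (0 : ℝ) 1, dist (γ.1 t) (γ'.1 t) ≤ t * dist y y' := by
  obtain ⟨L, hL⟩ := γ.2.1
  obtain ⟨γ', L', h1, h2, h3, h4⟩ := hP.exists_move hL y' (by rw [γ.2.2.2]; exact hy)
  rw [γ.2.2.2] at h4
  exact ⟨⟨γ', ⟨L', h1⟩, h2.trans γ.2.2.1, h3⟩, h4⟩

/-- Transport of local geodesics. -/
noncomputable def tr (hP : LocCat P ε) {x y y' : P} (hy : dist y y' < ε / 16) (γ : Eg x y) :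
    Eg x y' := (Eg.exists_tr hP hy γ).choose

theorem tr_spec (hP : LocCat P ε) {x y y' : P} (hy : dist y y' < ε / 16) (γ : Eg x y) {t : ℝ}
    (ht : t ∈ Icc (0 : ℝ) 1) : dist (γ.1 t) ((tr hP hy γ).1 t) ≤ t * dist y y' :=
  (Eg.exists_tr hP hy γ).choose_spec t ht

theorem tr_lt (hP : LocCat P ε) {x y y' : P} (hy : dist y y' < ε / 16) (γ : Eg x y) {t : ℝ}
    (ht : t ∈ Icc (0 : ℝ) 1) : dist (γ.1 t) ((tr hP hy γ).1 t) < ε / 16 := by
  have h1 := tr_spec hP hy γ ht
  have h2 : t * dist y y' ≤ dist y y' := by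
    have : 0 ≤ dist y y' := dist_nonneg
    nlinarith [ht.2]
  linarith

/-- Transport is characterised by closeness. -/
theorem tr_eq (hP : LocCat P ε) {x y y' : P} (hy : dist y y' < ε / 16) (γ : Eg x y) (γ' : Eg x y')
    (h : ∀ t ∈ Icc (0 : ℝ) 1, dist (γ.1 t) (γ'.1 t) < ε / 8) : tr hP hy γ = γ' := by
  have hε := hP.pos
  refine Eg.eq_of_near hP fun t ht => ?_
  have h1 := tr_lt hP hy γ ht
  have h2 := h t ht
  have h3 := dist_triangle ((tr hP hy γ).1 t) (γ.1 t) (γ'.1 t)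
  rw [dist_comm ((tr hP hy γ).1 t) (γ.1 t)] at h3
  linarith

theorem tr_tr (hP : LocCat P ε) {x y y' y'' : P} (hy : dist y y' < ε / 16)
    (hy' : dist y' y'' < ε / 16) (hy'' : dist y y'' < ε / 16) (γ : Eg x y) :
    tr hP hy' (tr hP hy γ) = tr hP hy'' γ := by
  have hε := hP.pos
  refine Eg.eq_of_near hP fun t ht => ?_
  have h1 := tr_lt hP hy γ ht
  have h2 := tr_lt hP hy' (tr hP hy γ) ht
  have h3 := tr_lt hP hy'' γ ht
  have h4 := dist_triangle4 ((tr hP hy' (tr hP hy γ)).1 t) ((tr hP hy γ).1 t) (γ.1 t)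
    ((tr hP hy'' γ).1 t)
  rw [dist_comm ((tr hP hy' (tr hP hy γ)).1 t) ((tr hP hy γ).1 t),
    dist_comm ((tr hP hy γ).1 t) (γ.1 t)] at h4
  linarith

theorem tr_self (hP : LocCat P ε) {x y : P} (hy : dist y y < ε / 16) (γ : Eg x y) :
    tr hP hy γ = γ :=
  tr_eq hP hy γ γ fun t _ => by rw [dist_self]; linarith [hP.pos]

/-- Transport as a bijection. -/
noncomputable def trE (hP : LocCat P ε) {x y y' : P} (hy : dist y y' < ε / 16) :
    Eg x y ≃ Eg x y' where
  toFun := tr hP hy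
  invFun := tr hP (y := y') (y' := y) (by rwa [dist_comm])
  left_inv γ := by
    rw [tr_tr hP hy (by rwa [dist_comm]) (by rw [dist_self]; linarith [hP.pos]), tr_self]
  right_inv γ := by
    rw [tr_tr hP (by rwa [dist_comm]) hy (by rw [dist_self]; linarith [hP.pos]), tr_self]

theorem exists_equiv (hP : LocCat P ε) (hδ : δ ≤ ε / 16) {x y : P}
    (h : ReflTransGen (fun a b => dist a b < δ) x y) : Nonempty (Eg x x ≃ Eg x y) := by
  induction h with
  | refl => exact ⟨Equiv.refl _⟩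
  | tail _ h1 ih =>
    obtain ⟨e⟩ := ih
    exact ⟨e.trans (trE hP (h1.trans_le hδ))⟩

/-- A consistent choice of local geodesics from `x`. -/
theorem exists_section (hP : LocCat P ε) (hδ : δ ≤ ε / 16) (hS : ScAt P δ) (x : P) :
    ∃ s : ∀ y, Eg x y, s x = Eg.const x ∧
      ∀ (y y' : P) (h : dist y y' < ε / 16), dist y y' < δ → tr hP h (s y) = s y' := by
  classical
  have hb : ∀ y, Nonempty (Eg x x ≃ Eg x y) := fun y => exists_equiv hP hδ (hS.conn x y)
  obtain ⟨b⟩ : Nonempty (∀ y, Eg x x ≃ Eg x y) := ⟨fun y => Classical.choice (hb y)⟩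
  obtain ⟨g, hg⟩ := hS.sc (Equiv.Perm (Eg x x)) (fun y y' => if h : dist y y' < δ then
    ((b y').trans (trE hP (y := y') (y' := y)
      (by rw [dist_comm]; exact h.trans_le hδ))).trans (b y).symm else 1) (by
    intro y z w h1 h2 h3
    simp only [dif_pos h1, dif_pos h2, dif_pos h3]
    ext γ : 1
    simp only [Equiv.Perm.mul_apply, Equiv.trans_apply, Equiv.apply_symm_apply]
    congr 1
    exact tr_tr hP (y := w) (y' := z) (y'' := y) (by rw [dist_comm]; exact h2.trans_le hδ)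
      (by rw [dist_comm]; exact h1.trans_le hδ) (by rw [dist_comm]; exact h3.trans_le hδ) (b w γ))
  have hg' : ∀ y y' (h : dist y y' < δ) (h' : dist y' y < ε / 16) (γ : Eg x x),
      tr hP h' (b y' γ) = b y ((g y)⁻¹ (g y' γ)) := by
    intro y y' h h' γ
    have h1 := hg y y' h
    simp only [dif_pos h] at h1
    have h2 := congrArg (fun e : Equiv.Perm (Eg x x) => b y (e γ)) h1
    simp only [Equiv.Perm.mul_apply, Equiv.trans_apply, Equiv.apply_symm_apply] at h2
    exact h2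
  refine ⟨fun y => b y ((g y)⁻¹ (g x ((b x).symm (Eg.const x)))), ?_, fun y y' h h1 => ?_⟩
  · simp
  · rw [dist_comm] at h1
    rw [hg' y' y h1 h]
    simp

/-- **Uniqueness of local geodesics.** -/
theorem Eg.unique (hP : LocCat P ε) (hδ0 : 0 < δ) (hδ : δ ≤ ε / 16) (hS : ScAt P δ) {x y : P}
    (γ γ' : Eg x y) : γ = γ' := by
  obtain ⟨s, hs, hs'⟩ := exists_section hP hδ hS x
  have key : ∀ {y : P} (γ : Eg x y), s y = γ := by
    intro y γ
    obtain ⟨⟨L, hL⟩, h0, h1⟩ := γ.2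
    obtain ⟨N₀, hN₀⟩ := exists_nat_gt (L / δ)
    obtain ⟨N, hNe⟩ : ∃ N, N = N₀ + 1 := ⟨_, rfl⟩
    have hN : 0 < N := by omega
    have hN' : (0 : ℝ) < N := by exact_mod_cast hN
    have hLN : L / N < δ := by
      rw [div_lt_iff₀ hδ0] at hN₀
      rw [div_lt_iff₀ hN', hNe]
      push_cast
      nlinarith
    have hn : ∀ i : ℕ, i ≤ N → (i : ℝ) / N ∈ Icc (0 : ℝ) 1 := fun i hi =>
      ⟨by positivity, by rw [div_le_one hN']; exact_mod_cast hi⟩
    -- the beginnings of `γ`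
    have step : ∀ i : ℕ, i ≤ N →
        (s (γ.1 ((i : ℝ) / N))).1 = fun t => γ.1 ((i : ℝ) / N * max 0 (min 1 t)) := by
      intro i
      induction i with
      | zero =>
        intro _
        have h2 : γ.1 (((0 : ℕ) : ℝ) / N) = x := by rw [Nat.cast_zero, zero_div, h0]
        rw [h2, hs]
        funext t
        rw [Nat.cast_zero, zero_div, zero_mul, h0]
        rfl
      | succ i ih =>
        intro hi
        have hi' := ih (by omega)
        obtain ⟨a, ha⟩ : ∃ a, a = (i : ℝ) / N := ⟨_, rfl⟩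
        obtain ⟨c, hc⟩ : ∃ c, c = ((i + 1 : ℕ) : ℝ) / N := ⟨_, rfl⟩
        have ha' : a ∈ Icc (0 : ℝ) 1 := ha ▸ hn i (by omega)
        have hc' : c ∈ Icc (0 : ℝ) 1 := hc ▸ hn (i + 1) hi
        rw [← ha] at hi'
        rw [← hc]
        have hac : c - a = 1 / N := by rw [ha, hc]; push_cast; ring
        have hac' : a ≤ c := by
          have : 0 < 1 / (N : ℝ) := by positivity
          linarith
        have hd : dist (γ.1 a) (γ.1 c) ≤ L / N := by
          have := hL.lip ha'.1 hac' hc'.2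
          rw [hac, mul_one_div] at this
          exact this
        have hlt : dist (γ.1 a) (γ.1 c) < ε / 16 := by linarith
        rw [← hs' _ _ hlt (by linarith)]
        have e2 : (fun t => γ.1 (c * max 0 (min 1 t))) 0 = x := by
          simp only
          rw [clamp_eq ⟨le_rfl, zero_le_one⟩, mul_zero, h0]
        have e3 : (fun t => γ.1 (c * max 0 (min 1 t))) 1 = γ.1 c := by
          simp only
          rw [clamp_eq ⟨zero_le_one, le_rfl⟩, mul_one]
        have h5 := tr_eq hP hlt (s (γ.1 a))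
          (⟨fun t => γ.1 (c * max 0 (min 1 t)), ⟨_, hL.scale hc'⟩, e2, e3⟩ : Eg x (γ.1 c)) ?_
        · rw [h5]
        · intro t ht
          rw [hi']
          simp only
          rw [clamp_eq ht]
          have e4 := hL.lip (s := a * t) (t := c * t) (mul_nonneg ha'.1 ht.1)
            (mul_le_mul_of_nonneg_right hac' ht.1) (by nlinarith [hc'.1, hc'.2, ht.1, ht.2])
          have e5 : L * (c * t - a * t) ≤ L / N := by
            have e6 : c * t - a * t = (1 / N) * t := by rw [← sub_mul, hac]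
            rw [e6]
            have e7 : L * (1 / N * t) = (L / N) * t := by ring
            rw [e7]
            have : 0 ≤ L / N := div_nonneg hL.nonneg hN'.le
            nlinarith [ht.2]
          have := hP.pos
          linarith
    have h2 := step N le_rfl
    have h3 : γ.1 ((N : ℝ) / N) = y := by rw [div_self hN'.ne', h1]
    rw [h3, div_self hN'.ne'] at h2
    refine Subtype.ext (h2.trans ?_)
    funext t
    rw [one_mul]
    exact (hL.out t).symm
  rw [← key γ, ← key γ']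

/-- Existence of local geodesics. -/
theorem Eg.exists (hP : LocCat P ε) (hδ : δ ≤ ε / 16) (hS : ScAt P δ) (x y : P) :
    Nonempty (Eg x y) := by
  obtain ⟨e⟩ := exists_equiv hP hδ (hS.conn x y)
  exact ⟨e (Eg.const x)⟩

end

end Pool.Agent.Helper37.CH
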